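import Mathlib

/-!
# Even-pair-free Berge graphs and 2-joins: definitions
-/

set_option autoImplicit false

namespace Pool.Agent.H171R2.EP

open SimpleGraph

/-- `ChordlessPath G n u v`: there is a chordless (induced) path with `n` edges in `G` with ends
`u` and `v`, that is, an embedding of the path graph on `n + 1` vertices as an induced subgraph,
sending its two ends to `u` and `v`. -/
def ChordlessPath {V : Type} (G : SimpleGraph V) (n : ℕ) (u v : V) : Prop :=
  ∃ f : pathGraph (n + 1) ↪g G, f 0 = u ∧ f (Fin.last n) = v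

/-- An even pair: two distinct vertices such that every chordless path between them has even
length. -/
def IsEvenPair {V : Type} (G : SimpleGraph V) (u v : V) : Prop :=
  u ≠ v ∧ ∀ n : ℕ, ChordlessPath G n u v → Even n

/-- `G` is even-pair-free: no two of its vertices form an even pair. -/
def EvenPairFree {V : Type} (G : SimpleGraph V) : Prop :=
  ∀ u v : V, ¬ IsEvenPair G u v

/-- `G` is Berge: it contains no odd hole (induced odd cycle with at least 4, hence at least 5,
vertices) and no odd antihole (complement of an odd hole) as an induced subgraph. -/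
def IsBerge {V : Type} (G : SimpleGraph V) : Prop :=
  ∀ n : ℕ, 4 ≤ n → Odd n →
    ¬ Nonempty (cycleGraph n ↪g G) ∧ ¬ Nonempty ((cycleGraph n)ᶜ ↪g G)

/-- `G` is (isomorphic to) the line graph of a bipartite graph. -/
def IsLineGraphOfBipartite {V : Type} (G : SimpleGraph V) : Prop :=
  ∃ (W : Type) (H : SimpleGraph W), H.Colorable 2 ∧ Nonempty (G ≃g H.lineGraph)

/-- `InP G U A B n f`: the embedding `f` is a chordless path with `n` edges of `G[U]` with one end
in `A`, the other end in `B` and no interior vertex in `A ∪ B`. -/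
def InP {V : Type} (G : SimpleGraph V) (U A B : Set V) (n : ℕ)
    (f : pathGraph (n + 1) ↪g G.induce U) : Prop :=
  ((f 0 : U) : V) ∈ A ∧ ((f (Fin.last n) : U) : V) ∈ B ∧
    ∀ j : Fin (n + 1), j ≠ 0 → j ≠ Fin.last n → ((f j : U) : V) ∉ A ∪ B

/-- Condition (b) in the definition of a 2-join for one side: the set `P` of chordless paths of
`G[U]` with one end in `A`, the other end in `B` and no interior vertex in `A ∪ B` is nonempty, and
`G[U]` is not isomorphic to any path in `P`. -/
def SideCond {V : Type} (G : SimpleGraph V) (U A B : Set V) : Prop :=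
  (∃ (n : ℕ) (f : pathGraph (n + 1) ↪g G.induce U), InP G U A B n f) ∧
  ∀ (n : ℕ) (f : pathGraph (n + 1) ↪g G.induce U), InP G U A B n f →
    IsEmpty (G.induce U ≃g pathGraph (n + 1))

/-- `G` has a 2-join: a partition of the vertex set into `V₁` and `V₂`, with disjoint nonempty sets
`A₁, B₁ ⊆ V₁` and `A₂, B₂ ⊆ V₂` such that the edges between `V₁` and `V₂` are exactly the pairs
between `A₁` and `A₂` and between `B₁` and `B₂`, and such that both sides satisfy `SideCond`. -/
def HasTwoJoin {V : Type} (G : SimpleGraph V) : Prop :=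
  ∃ V₁ V₂ A₁ B₁ A₂ B₂ : Set V,
    V₁ ∪ V₂ = Set.univ ∧ Disjoint V₁ V₂ ∧
    A₁ ⊆ V₁ ∧ B₁ ⊆ V₁ ∧ A₂ ⊆ V₂ ∧ B₂ ⊆ V₂ ∧
    A₁.Nonempty ∧ B₁.Nonempty ∧ A₂.Nonempty ∧ B₂.Nonempty ∧
    Disjoint A₁ B₁ ∧ Disjoint A₂ B₂ ∧
    (∀ x ∈ V₁, ∀ y ∈ V₂, G.Adj x y ↔ (x ∈ A₁ ∧ y ∈ A₂) ∨ (x ∈ B₁ ∧ y ∈ B₂)) ∧
    SideCond G V₁ A₁ B₁ ∧ SideCond G V₂ A₂ B₂

end Pool.Agent.H171R2.EP
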