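import Mathlib

/-!
# Kernel-checkable search for induced paths and holes in small graphs given by bit masks
(generalisation to any number of vertices of the search in `H659Houg`)
-/

set_option autoImplicit false

namespace Pool.Agent.H171R2.Hole

open SimpleGraph

/-- an induced path of length `n`, as a function on `ℕ` -/
def IndPath {V : Type} (G : SimpleGraph V) (n : ℕ) (f : ℕ → V) : Prop :=
  ∀ i j, i ≤ n → j ≤ n → (G.Adj (f i) (f j) ↔ (i + 1 = j ∨ j + 1 = i)) ∧ (f i = f j → i = j)

/-- `safe N A b q k v avail d`: every induced continuation of a path ending in `v` (length `d`)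
through available vertices to `b` satisfies `q`. -/
def safe (N : ℕ) (A : ℕ → ℕ) (b : ℕ) (q : ℕ → Bool) : ℕ → ℕ → ℕ → ℕ → Bool
  | 0, _, _, _ => false
  | k+1, v, avail, d =>
    (List.range N).all fun u =>
      !((A v &&& avail).testBit u) ||
        (if u == b then q (d+1)
         else safe N A b q k u (avail ^^^ (avail &&& A v)) (d+1))

theorem testBit_one_shl (a w : ℕ) : (1 <<< a).testBit w = decide (a = w) := by
  rw [Nat.one_shiftLeft, Nat.testBit_two_pow]

theorem safe_sound {N : ℕ} (A : ℕ → ℕ) (G : SimpleGraph (Fin N))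
    (hA : ∀ u v : Fin N, G.Adj u v ↔ (A u).testBit v = true)
    (q : ℕ → Bool) (n : ℕ) (f : ℕ → Fin N) (hf : IndPath G n f) :
    ∀ k i avail, i < n → (∀ j, i < j → j ≤ n → avail.testBit (f j) = true) →
      safe N A (f n) q k (f i) avail i = true → q n = true := by
  intro k
  induction k with
  | zero => intro i avail _ _ h; simp [safe] at h
  | succ k ih =>
    intro i avail hin hav h
    rw [safe, List.all_eq_true] at h
    have h1 := h (f (i+1)) (List.mem_range.2 (f (i+1)).2)
    have hadj : (A (f i)).testBit (f (i+1)) = true :=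
      (hA _ _).1 (((hf i (i+1) hin.le hin).1).2 (Or.inl rfl))
    have hcand : ((A (f i)) &&& avail).testBit (f (i+1)) = true := by
      rw [Nat.testBit_land, hadj, hav (i+1) (Nat.lt_succ_self i) hin]; rfl
    rw [hcand] at h1
    simp only [Bool.not_true, Bool.false_or] at h1
    by_cases hn : i + 1 = n
    · have hb : ((f (i+1) : ℕ) == (f n : ℕ)) = true := by rw [hn]; simp
      rw [hb] at h1
      simp only [if_true] at h1
      rw [← hn]; exact h1
    · have hlt : i + 1 < n := lt_of_le_of_ne hin hn
      have hb : ((f (i+1) : ℕ) == (f n : ℕ)) = false := by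
        rw [beq_eq_false_iff_ne]
        intro he
        exact hn ((hf (i+1) n hin le_rfl).2 (Fin.ext he))
      rw [hb] at h1
      simp only [Bool.false_eq_true, if_false] at h1
      exact ih (i+1) _ hlt (by
        intro j hj hjn
        have hna : (A (f i)).testBit (f j) = false := by
          rw [Bool.eq_false_iff]
          intro hc
          have := ((hf i j hin.le hjn).1).1 ((hA _ _).2 hc)
          omega
        rw [Nat.testBit_xor, Nat.testBit_land, hna, hav j (by omega) hjn]; rfl) h1

/-- hole check: for every vertex `c` and all distinct nonadjacent neighbours `a`, `b` of `c`, every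
chordless path from `a` to `b` with interior outside the closed neighbourhood of `c` has length
satisfying `q` -/
def holeCheck (N : ℕ) (A : ℕ → ℕ) (q : ℕ → Bool) : Bool :=
  (List.range N).all fun c => (List.range N).all fun a => !((A c).testBit a) ||
    (List.range N).all fun b =>
    !((A c).testBit b && !(A a).testBit b && !(a == b)) ||
      safe N A b q (N+1) a ((((2^N-1) ^^^ (A c)) ^^^ (1 <<< c)) ||| (1 <<< b)) 0

theorem cyc_adj {n : ℕ} (hn : 3 ≤ n) (i j : ℕ) (hi : i < n) (hj : j < n) :
    (cycleGraph n).Adj ⟨i, hi⟩ ⟨j, hj⟩ ↔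
      (i + 1 = j ∨ j + 1 = i) ∨ (i = 0 ∧ j + 1 = n) ∨ (j = 0 ∧ i + 1 = n) := by
  rw [cycleGraph_adj']
  have key : ∀ a b : ℕ, ∀ ha : a < n, ∀ hb : b < n,
      ((⟨a, ha⟩ : Fin n) - ⟨b, hb⟩).val = 1 ↔ (b + 1 = a ∨ (a = 0 ∧ b + 1 = n)) := by
    intro a b ha hb
    rw [Fin.sub_def]
    change (n - b + a) % n = 1 ↔ _
    rcases Nat.lt_or_ge a b with hab | hab
    · rw [Nat.mod_eq_of_lt (by omega)]
      omega
    · have : n - b + a = (a - b) + n := by omega
      rw [this, Nat.add_mod_right, Nat.mod_eq_of_lt (by omega)]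
      omega
  rw [key i j hi hj, key j i hj hi]
  omega

theorem hole_sound {N : ℕ} (A : ℕ → ℕ) (G' : SimpleGraph (Fin N))
    (hA : ∀ u v : Fin N, G'.Adj u v ↔ (A u).testBit v = true) (q : ℕ → Bool)
    (hq : holeCheck N A q = true) (n : ℕ) (hn : 4 ≤ n) (g : cycleGraph n ↪g G') :
    q (n - 2) = true := by
  have hmin : ∀ i, min i (n - 1) < n := by intro i; omega
  set f : ℕ → Fin N := fun i => g ⟨min i (n-1), hmin i⟩ with hf
  have hfi : ∀ i (hi : i < n), f i = g ⟨i, hi⟩ := by
    intro i hi
    have : min i (n-1) = i := by omega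
    simp only [hf, this]
  have hadj : ∀ i j, i < n → j < n → (G'.Adj (f i) (f j) ↔
      (i + 1 = j ∨ j + 1 = i) ∨ (i = 0 ∧ j + 1 = n) ∨ (j = 0 ∧ i + 1 = n)) := by
    intro i j hi hj
    rw [hfi i hi, hfi j hj, g.map_adj_iff, cyc_adj (by omega)]
  have hinj : ∀ i j, i < n → j < n → f i = f j → i = j := by
    intro i j hi hj h
    rw [hfi i hi, hfi j hj] at h
    have := g.injective h
    rw [Fin.mk.injEq] at this
    exact this
  have hpath : IndPath G' (n-2) f := by
    intro i j hi hj
    refine ⟨?_, fun h => hinj i j (by omega) (by omega) h⟩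
    rw [hadj i j (by omega) (by omega)]
    omega
  have h := hq
  rw [holeCheck, List.all_eq_true] at h
  have h1 := h (f (n-1)) (List.mem_range.2 (f (n-1)).2)
  rw [List.all_eq_true] at h1
  have h2 := h1 (f 0) (List.mem_range.2 (f 0).2)
  have e1 : (A (f (n-1))).testBit (f 0) = true :=
    (hA _ _).1 ((hadj (n-1) 0 (by omega) (by omega)).2 (by omega))
  rw [e1, Bool.not_true, Bool.false_or, List.all_eq_true] at h2
  have h3 := h2 (f (n-2)) (List.mem_range.2 (f (n-2)).2)
  have e2 : (A (f (n-1))).testBit (f (n-2)) = true :=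
    (hA _ _).1 ((hadj (n-1) (n-2) (by omega) (by omega)).2 (by omega))
  have e3 : (A (f 0)).testBit (f (n-2)) = false := by
    rw [Bool.eq_false_iff]
    intro hc
    have := (hadj 0 (n-2) (by omega) (by omega)).1 ((hA _ _).2 hc)
    omega
  have e4 : ((f 0 : ℕ) == (f (n-2) : ℕ)) = false := by
    rw [beq_eq_false_iff_ne]
    intro hc
    have := hinj 0 (n-2) (by omega) (by omega) (Fin.ext hc)
    omega
  rw [e2, e3, e4] at h3
  simp only [Bool.not_false, Bool.and_true, Bool.not_true, Bool.false_or] at h3
  exact safe_sound A G' hA q (n-2) f hpath (N+1) 0 _ (by omega) (by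
    intro j hj hjn
    rcases Nat.eq_or_lt_of_le hjn with rfl | hjn
    · rw [Nat.testBit_lor, testBit_one_shl]
      simp
    · rw [Nat.testBit_lor, Nat.testBit_xor, Nat.testBit_xor, Nat.testBit_two_pow_sub_one,
        testBit_one_shl, testBit_one_shl]
      have g1 : (A (f (n-1))).testBit (f j) = false := by
        rw [Bool.eq_false_iff]
        intro hc
        have := (hadj (n-1) j (by omega) (by omega)).1 ((hA _ _).2 hc)
        omega
      have g2 : ¬ ((f (n-1) : ℕ) = f j) := by
        intro hc
        have := hinj (n-1) j (by omega) (by omega) (Fin.ext hc)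
        omega
      rw [g1]
      simp [g2]) h3

theorem no_odd_hole {N : ℕ} (A : ℕ → ℕ) (G' : SimpleGraph (Fin N))
    (hA : ∀ u v : Fin N, G'.Adj u v ↔ (A u).testBit v = true)
    (hq : holeCheck N A (fun d => d % 2 == 0) = true) (n : ℕ) (hn : 4 ≤ n) (hodd : Odd n) :
    ¬ Nonempty (cycleGraph n ↪g G') := by
  rintro ⟨g⟩
  have hm := hole_sound A G' hA _ hq n hn g
  rw [beq_iff_eq] at hm
  rw [Nat.odd_iff] at hodd
  omega

/-- an embedding of the complement of `H` into `G` is an embedding of `H` into the complement. -/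
def complEmb {V W : Type} (H : SimpleGraph W) (G : SimpleGraph V) (g : Hᶜ ↪g G) : H ↪g Gᶜ where
  toEmbedding := g.toEmbedding
  map_rel_iff' := by
    intro a b
    change Gᶜ.Adj (g a) (g b) ↔ _
    rw [compl_adj, g.map_adj_iff, compl_adj]
    constructor
    · rintro ⟨h1, h2⟩
      by_contra h3
      exact h2 ⟨fun h => h1 (by rw [h]), h3⟩
    · intro h
      exact ⟨fun he => h.ne (g.injective he), fun h2 => h2.2 h⟩

end Pool.Agent.H171R2.Hole
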