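import Mathlib
import Pool.Agent.H171R2.EPDefs
import Pool.Agent.H171R2.HoleSearch

/-!
# Kernel-checkable proof that a small graph has no 2-join
-/

set_option autoImplicit false

namespace Pool.Agent.H171R2.EP

open SimpleGraph Pool.Agent.H171R2.Hole

/-- vertices forced to lie in `V₁`, given that `u` lies in `V₁`
(and that `a1 ∈ A₁, a2 ∈ A₂, b1 ∈ B₁, b2 ∈ B₂`) -/
def forced (N : ℕ) (A : ℕ → ℕ) (a1 b1 a2 b2 u : ℕ) : ℕ :=
  if (A a2).testBit u then
    (if (A b2).testBit u then 2^N-1 else A u ^^^ A a1)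
  else if (A b2).testBit u then A u ^^^ A b1 else A u

/-- one round of closure -/
def oneRound (N : ℕ) (A : ℕ → ℕ) (a1 b1 a2 b2 : ℕ) : List ℕ → ℕ → ℕ
  | [], S => S
  | u :: us, S =>
    oneRound N A a1 b1 a2 b2 us (if S.testBit u then S ||| forced N A a1 b1 a2 b2 u else S)

def rounds (N : ℕ) (A : ℕ → ℕ) (a1 b1 a2 b2 : ℕ) : ℕ → ℕ → Bool
  | 0, S => S.testBit a2 || S.testBit b2
  | k+1, S => (S.testBit a2 || S.testBit b2) ||
      rounds N A a1 b1 a2 b2 k (oneRound N A a1 b1 a2 b2 (List.range N) S)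

def joinCheck (N : ℕ) (A : ℕ → ℕ) : Bool :=
  (List.range N).all fun a1 => (List.range N).all fun a2 => !((A a1).testBit a2) ||
    (List.range N).all fun b1 => ((A b1).testBit a2) ||
      (List.range N).all fun b2 => !((A b1).testBit b2) || (A a1).testBit b2 ||
        (a1 == b1) || (a2 == b2) ||
        rounds N A a1 b1 a2 b2 N ((1 <<< a1) ||| (1 <<< b1) ||| (A a1 &&& A b1))

section

variable {N : ℕ} (A : ℕ → ℕ) (G : SimpleGraph (Fin N))
    (hA : ∀ u v : Fin N, G.Adj u v ↔ (A u).testBit v = true)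
    (V₁ V₂ A₁ B₁ A₂ B₂ : Set (Fin N))
    (hV : V₁ ∪ V₂ = Set.univ) (hd : Disjoint V₁ V₂)
    (hA1 : A₁ ⊆ V₁) (hB1 : B₁ ⊆ V₁) (hA2 : A₂ ⊆ V₂) (hB2 : B₂ ⊆ V₂)
    (hdis1 : Disjoint A₁ B₁) (hdis2 : Disjoint A₂ B₂)
    (hadj : ∀ x ∈ V₁, ∀ y ∈ V₂, G.Adj x y ↔ (x ∈ A₁ ∧ y ∈ A₂) ∨ (x ∈ B₁ ∧ y ∈ B₂))
    (a1 b1 a2 b2 : Fin N) (ha1 : a1 ∈ A₁) (hb1 : b1 ∈ B₁) (ha2 : a2 ∈ A₂) (hb2 : b2 ∈ B₂)

include hA hV hA1 hB1 hA2 hB2 hdis1 hdis2 hadj ha1 hb1 ha2 hb2

theorem forced_sound (u : Fin N) (hu : u ∈ V₁) (v : Fin N)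
    (hv : (forced N A a1 b1 a2 b2 u).testBit v = true) : v ∈ V₁ := by
  by_contra hv1
  have hv2 : v ∈ V₂ := by
    have : v ∈ V₁ ∪ V₂ := by rw [hV]; trivial
    rcases this with h | h
    · exact absurd h hv1
    · exact h
  have hua2 : (A a2).testBit u = true ↔ u ∈ A₁ := by
    rw [← hA, G.adj_comm, hadj u hu a2 (hA2 ha2)]
    constructor
    · rintro (h | h)
      · exact h.1
      · exact absurd h.2 (Set.disjoint_left.1 hdis2 ha2)
    · intro h
      exact Or.inl ⟨h, ha2⟩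
  have hub2 : (A b2).testBit u = true ↔ u ∈ B₁ := by
    rw [← hA, G.adj_comm, hadj u hu b2 (hB2 hb2)]
    constructor
    · rintro (h | h)
      · exact absurd hb2 (Set.disjoint_left.1 hdis2 h.2)
      · exact h.1
    · intro h
      exact Or.inr ⟨h, hb2⟩
  have hva1 : (A a1).testBit v = true ↔ v ∈ A₂ := by
    rw [← hA, hadj a1 (hA1 ha1) v hv2]
    constructor
    · rintro (h | h)
      · exact h.2
      · exact absurd h.1 (Set.disjoint_left.1 hdis1 ha1)
    · intro h
      exact Or.inl ⟨ha1, h⟩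
  have hvb1 : (A b1).testBit v = true ↔ v ∈ B₂ := by
    rw [← hA, hadj b1 (hB1 hb1) v hv2]
    constructor
    · rintro (h | h)
      · exact absurd hb1 (Set.disjoint_left.1 hdis1 h.1)
      · exact h.2
    · intro h
      exact Or.inr ⟨hb1, h⟩
  have huv : (A u).testBit v = true ↔ (u ∈ A₁ ∧ v ∈ A₂) ∨ (u ∈ B₁ ∧ v ∈ B₂) := by
    rw [← hA, hadj u hu v hv2]
  rw [forced] at hv
  by_cases h1 : (A a2).testBit u = true
  · rw [if_pos h1] at hv
    have huA := hua2.1 h1
    have huB : u ∉ B₁ := Set.disjoint_left.1 hdis1 huA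
    by_cases h2 : (A b2).testBit u = true
    · exact huB (hub2.1 h2)
    · rw [if_neg h2, Nat.testBit_xor] at hv
      have : (A u).testBit v = (A a1).testBit v := by
        rw [Bool.eq_iff_iff, huv, hva1]
        constructor
        · rintro (h | h)
          · exact h.2
          · exact absurd h.1 huB
        · intro h
          exact Or.inl ⟨huA, h⟩
      rw [this] at hv
      simp at hv
  · rw [if_neg h1] at hv
    have huA : u ∉ A₁ := fun h => h1 (hua2.2 h)
    by_cases h2 : (A b2).testBit u = true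
    · rw [if_pos h2, Nat.testBit_xor] at hv
      have huB := hub2.1 h2
      have : (A u).testBit v = (A b1).testBit v := by
        rw [Bool.eq_iff_iff, huv, hvb1]
        constructor
        · rintro (h | h)
          · exact absurd h.1 huA
          · exact h.2
        · intro h
          exact Or.inr ⟨huB, h⟩
      rw [this] at hv
      simp at hv
    · rw [if_neg h2] at hv
      have huB : u ∉ B₁ := fun h => h2 (hub2.2 h)
      rcases huv.1 hv with h | h
      · exact huA h.1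
      · exact huB h.1

theorem oneRound_sound (l : List ℕ) (hl : ∀ u ∈ l, u < N) (S : ℕ)
    (hS : ∀ v : Fin N, S.testBit v = true → v ∈ V₁) :
    ∀ v : Fin N, (oneRound N A a1 b1 a2 b2 l S).testBit v = true → v ∈ V₁ := by
  induction l generalizing S with
  | nil => exact hS
  | cons u us ih =>
    rw [oneRound]
    apply ih (fun x hx => hl x (List.mem_cons_of_mem _ hx))
    intro v hv
    by_cases h : S.testBit u = true
    · rw [if_pos h, Nat.testBit_lor, Bool.or_eq_true] at hv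
      rcases hv with hv | hv
      · exact hS v hv
      · have hu : u < N := hl u List.mem_cons_self
        exact forced_sound A G hA V₁ V₂ A₁ B₁ A₂ B₂ hV hA1 hB1 hA2 hB2 hdis1 hdis2 hadj
          a1 b1 a2 b2 ha1 hb1 ha2 hb2 ⟨u, hu⟩ (hS ⟨u, hu⟩ h) v hv
    · rw [if_neg h] at hv
      exact hS v hv

include hd in
theorem rounds_sound (k S : ℕ) (hS : ∀ v : Fin N, S.testBit v = true → v ∈ V₁) :
    rounds N A a1 b1 a2 b2 k S = false := by
  have hbase : ∀ S : ℕ, (∀ v : Fin N, S.testBit v = true → v ∈ V₁) →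
      (S.testBit a2 || S.testBit b2) = false := by
    intro S hS
    rw [Bool.or_eq_false_iff]
    constructor
    · rw [Bool.eq_false_iff]
      intro h
      exact Set.disjoint_left.1 hd (hS _ h) (hA2 ha2)
    · rw [Bool.eq_false_iff]
      intro h
      exact Set.disjoint_left.1 hd (hS _ h) (hB2 hb2)
  induction k generalizing S with
  | zero => rw [rounds]; exact hbase S hS
  | succ k ih =>
    rw [rounds, hbase S hS, Bool.false_or]
    exact ih _ (oneRound_sound A G hA V₁ V₂ A₁ B₁ A₂ B₂ hV hA1 hB1 hA2 hB2 hdis1 hdis2 hadj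
      a1 b1 a2 b2 ha1 hb1 ha2 hb2 _ (fun u hu => List.mem_range.1 hu) S hS)

end

theorem joinCheck_sound {N : ℕ} (A : ℕ → ℕ) (G : SimpleGraph (Fin N))
    (hA : ∀ u v : Fin N, G.Adj u v ↔ (A u).testBit v = true) (h : joinCheck N A = true) :
    ¬ HasTwoJoin G := by
  rintro ⟨V₁, V₂, A₁, B₁, A₂, B₂, hV, hd, hA1, hB1, hA2, hB2, ⟨a1, ha1⟩, ⟨b1, hb1⟩, ⟨a2, ha2⟩,
    ⟨b2, hb2⟩, hdis1, hdis2, hadj, -, -⟩
  rw [joinCheck, List.all_eq_true] at h
  have h1 := h a1 (List.mem_range.2 a1.2)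
  rw [List.all_eq_true] at h1
  have h2 := h1 a2 (List.mem_range.2 a2.2)
  have e1 : (A a1).testBit a2 = true :=
    (hA _ _).1 ((hadj a1 (hA1 ha1) a2 (hA2 ha2)).2 (Or.inl ⟨ha1, ha2⟩))
  rw [e1, Bool.not_true, Bool.false_or, List.all_eq_true] at h2
  have h3 := h2 b1 (List.mem_range.2 b1.2)
  have e2 : (A b1).testBit a2 = false := by
    rw [Bool.eq_false_iff]
    intro hc
    rcases (hadj b1 (hB1 hb1) a2 (hA2 ha2)).1 ((hA _ _).2 hc) with h | h
    · exact Set.disjoint_left.1 hdis1 h.1 hb1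
    · exact Set.disjoint_left.1 hdis2 ha2 h.2
  rw [e2, Bool.false_or, List.all_eq_true] at h3
  have h4 := h3 b2 (List.mem_range.2 b2.2)
  have e3 : (A b1).testBit b2 = true :=
    (hA _ _).1 ((hadj b1 (hB1 hb1) b2 (hB2 hb2)).2 (Or.inr ⟨hb1, hb2⟩))
  have e4 : (A a1).testBit b2 = false := by
    rw [Bool.eq_false_iff]
    intro hc
    rcases (hadj a1 (hA1 ha1) b2 (hB2 hb2)).1 ((hA _ _).2 hc) with h | h
    · exact Set.disjoint_left.1 hdis2 h.2 hb2
    · exact Set.disjoint_left.1 hdis1 ha1 h.1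
  have e5 : ((a1 : ℕ) == (b1 : ℕ)) = false := by
    rw [beq_eq_false_iff_ne]
    intro hc
    have : a1 = b1 := Fin.ext hc
    subst this
    exact Set.disjoint_left.1 hdis1 ha1 hb1
  have e6 : ((a2 : ℕ) == (b2 : ℕ)) = false := by
    rw [beq_eq_false_iff_ne]
    intro hc
    have : a2 = b2 := Fin.ext hc
    subst this
    exact Set.disjoint_left.1 hdis2 ha2 hb2
  rw [e3, e4, e5, e6] at h4
  simp only [Bool.not_true, Bool.false_or] at h4
  have h5 := rounds_sound A G hA V₁ V₂ A₁ B₁ A₂ B₂ hV hd hA1 hB1 hA2 hB2 hdis1 hdis2 hadj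
    a1 b1 a2 b2 ha1 hb1 ha2 hb2 N
      ((1 <<< (a1 : ℕ)) ||| (1 <<< (b1 : ℕ)) ||| (A a1 &&& A b1)) (by
      intro v hv
      rw [Nat.testBit_lor, Bool.or_eq_true, Nat.testBit_lor, Bool.or_eq_true, testBit_one_shl,
        testBit_one_shl, Nat.testBit_land, Bool.and_eq_true] at hv
      rcases hv with (hv | hv) | hv
      · have : a1 = v := Fin.ext (of_decide_eq_true hv)
        subst this
        exact hA1 ha1
      · have : b1 = v := Fin.ext (of_decide_eq_true hv)
        subst this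
        exact hB1 hb1
      · by_contra hv1
        have hv2 : v ∈ V₂ := by
          have : v ∈ V₁ ∪ V₂ := by rw [hV]; trivial
          rcases this with h | h
          · exact absurd h hv1
          · exact h
        have g1 := (hadj a1 (hA1 ha1) v hv2).1 ((hA _ _).2 hv.1)
        have g2 := (hadj b1 (hB1 hb1) v hv2).1 ((hA _ _).2 hv.2)
        rcases g1 with g1 | g1
        · rcases g2 with g2 | g2
          · exact Set.disjoint_left.1 hdis1 g2.1 hb1
          · exact Set.disjoint_left.1 hdis2 g1.2 g2.2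
        · exact Set.disjoint_left.1 hdis1 ha1 g1.1)
  rw [h5] at h4
  exact absurd h4 (by decide)

end Pool.Agent.H171R2.EP
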