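import Mathlib
import Pool.Agent.H171R2.TwoJoinSearch

/-!
# The counterexample: the 3 x 3 rook's graph with one vertex replaced by another 3 x 3 rook's graph
-/

set_option autoImplicit false

namespace Pool.Agent.H171R2.EP

open SimpleGraph Pool.Agent.H171R2.Hole

/-- neighbourhoods of the vertices `0, ..., 16` as bit masks -/
def adjL : List ℕ := [78, 149, 130851, 113, 170, 130844, 130953, 130898, 20196, 38372, 74724, 29156,
  43748, 72932, 100836, 86756, 58596]

def adj (v : ℕ) : ℕ := adjL.getD v 0

/-- complement adjacency masks -/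
def coadj (v : ℕ) : ℕ := ((2^17-1) ^^^ adj v) ^^^ (1 <<< v)

/-- The counterexample. -/
def G : SimpleGraph (Fin 17) where
  Adj u v := (adj u).testBit v = true
  symm := by
    have h : ∀ u v : Fin 17, (adj u).testBit v = true → (adj v).testBit u = true := by
      decide +kernel
    exact ⟨fun u v => h u v⟩
  loopless := by
    have h : ∀ u : Fin 17, ¬ (adj u).testBit u = true := by decide +kernel
    exact ⟨h⟩

theorem G_adj (u v : Fin 17) : G.Adj u v ↔ (adj u).testBit v = true := Iff.rfl

theorem Gc_adj (u v : Fin 17) : Gᶜ.Adj u v ↔ (coadj u).testBit v = true := by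
  have h : ∀ u v : Fin 17, (u ≠ v ∧ ¬ (adj u).testBit v = true) ↔ (coadj u).testBit v = true := by
    decide +kernel
  rw [compl_adj, G_adj]
  exact h u v

theorem joinG : joinCheck 17 adj = true := by decide +kernel

theorem joinGc : joinCheck 17 coadj = true := by decide +kernel

theorem holeG : holeCheck 17 adj (fun d => d % 2 == 0) = true := by decide +kernel

theorem holeGc : holeCheck 17 coadj (fun d => d % 2 == 0) = true := by decide +kernel

theorem G_berge : IsBerge G := by
  intro n hn hodd
  refine ⟨no_odd_hole adj G G_adj holeG n hn hodd, ?_⟩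
  rintro ⟨g⟩
  exact no_odd_hole coadj Gᶜ Gc_adj holeGc n hn hodd ⟨complEmb _ _ g⟩

/-- test for a chordless path of length 3 from `u` to `v` -/
def p3 (N : ℕ) (A : ℕ → ℕ) (u v : ℕ) : Bool :=
  (List.range N).any fun p => (A u).testBit p && !(A v).testBit p &&
    (List.range N).any fun q => (A p).testBit q && (A q).testBit v && !(A u).testBit q

theorem evenPairFree_of {N : ℕ} (A : ℕ → ℕ) (G : SimpleGraph (Fin N))
    (hA : ∀ u v : Fin N, G.Adj u v ↔ (A u).testBit v = true)
    (h : ∀ u v : Fin N, u ≠ v → (A u).testBit v = true ∨ p3 N A u v = true) :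
    EvenPairFree G := by
  rintro u v ⟨huv, hev⟩
  rcases h u v huv with h1 | h1
  · have hadj := (hA u v).2 h1
    have := hev 1 ⟨⟨⟨fun i => if i = 0 then u else v, ?_⟩, ?_⟩, ?_, ?_⟩
    · exact absurd this (by decide)
    · intro i j hij
      fin_cases i <;> fin_cases j <;> simp_all
    · intro i j
      rw [pathGraph_adj]
      change G.Adj (if i = 0 then u else v) (if j = 0 then u else v) ↔ _
      fin_cases i <;> fin_cases j <;> simp [hadj, hadj.symm]
    · rfl
    · rfl
  · rw [p3, List.any_eq_true] at h1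
    obtain ⟨p, hp, h1⟩ := h1
    rw [Bool.and_eq_true, Bool.and_eq_true, List.any_eq_true] at h1
    obtain ⟨⟨hup, hvp⟩, q, hq, h1⟩ := h1
    rw [Bool.and_eq_true, Bool.and_eq_true] at h1
    obtain ⟨⟨hpq, hqv⟩, huq⟩ := h1
    rw [List.mem_range] at hp hq
    lift p to Fin N using hp
    lift q to Fin N using hq
    rw [← hA] at hup hpq hqv
    have hvp' : ¬ G.Adj v p := by
      rw [hA]
      simpa using hvp
    have huq' : ¬ G.Adj u q := by
      rw [hA]
      simpa using huq
    by_cases huv' : G.Adj u v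
    · have := hev 1 ⟨⟨⟨fun i => if i = 0 then u else v, ?_⟩, ?_⟩, ?_, ?_⟩
      · exact absurd this (by decide)
      · intro i j hij
        fin_cases i <;> fin_cases j <;> simp_all
      · intro i j
        rw [pathGraph_adj]
        change G.Adj (if i = 0 then u else v) (if j = 0 then u else v) ↔ _
        fin_cases i <;> fin_cases j <;> simp [huv', huv'.symm]
      · rfl
      · rfl
    · have hvp2 : ¬ G.Adj p v := fun h => hvp' h.symm
      have huq2 : ¬ G.Adj q u := fun h => huq' h.symm
      have huv2 : ¬ G.Adj v u := fun h => huv' h.symm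
      have := hev 3 ⟨⟨⟨![u, p, q, v], ?_⟩, ?_⟩, ?_, ?_⟩
      · exact absurd this (by decide)
      · intro i j hij
        have hup' := hup.ne
        have hpq' := hpq.ne
        have hqv' := hqv.ne
        have huq3 : u ≠ q := by
          rintro rfl
          exact huv' hqv
        have hpv3 : p ≠ v := by
          rintro rfl
          exact huv' hup
        fin_cases i <;> fin_cases j <;> simp_all
      · intro i j
        rw [pathGraph_adj]
        change G.Adj (![u, p, q, v] i) (![u, p, q, v] j) ↔ _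
        fin_cases i <;> fin_cases j <;>
          simp [hup, hup.symm, hpq, hpq.symm, hqv, hqv.symm, huv', huv2, hvp', hvp2, huq', huq2]
      · rfl
      · rfl

theorem G_epf : EvenPairFree G := by
  refine evenPairFree_of adj G G_adj ?_
  decide +kernel

theorem Gc_epf : EvenPairFree Gᶜ := by
  refine evenPairFree_of coadj Gᶜ Gc_adj ?_
  decide +kernel

/-- line graphs are claw-free -/
theorem lineGraph_clawFree {W : Type} (H : SimpleGraph W) (e a b c : H.edgeSet)
    (ha : H.lineGraph.Adj e a) (hb : H.lineGraph.Adj e b) (hc : H.lineGraph.Adj e c)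
    (hab : a ≠ b) (hac : a ≠ c) (hbc : b ≠ c) :
    H.lineGraph.Adj a b ∨ H.lineGraph.Adj a c ∨ H.lineGraph.Adj b c := by
  rw [lineGraph_adj_iff_exists] at ha hb hc
  simp only [lineGraph_adj_iff_exists]
  obtain ⟨-, x, hxe, hxa⟩ := ha
  obtain ⟨-, y, hye, hyb⟩ := hb
  obtain ⟨-, z, hze, hzc⟩ := hc
  have : x = y ∨ x = z ∨ y = z := by
    obtain ⟨e, he⟩ := e
    induction e using Sym2.ind with
    | _ p q =>
      simp only [Sym2.mem_iff] at hxe hye hze
      rcases hxe with rfl | rfl <;> rcases hye with rfl | rfl <;> rcases hze with rfl | rfl <;> simp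
  rcases this with rfl | rfl | rfl
  · exact Or.inl ⟨hab, _, hxa, hyb⟩
  · exact Or.inr (Or.inl ⟨hac, _, hxa, hzc⟩)
  · exact Or.inr (Or.inr ⟨hbc, _, hyb, hzc⟩)

theorem not_lineGraph_of_claw {N : ℕ} (G : SimpleGraph (Fin N)) (e a b c : Fin N)
    (ha : G.Adj e a) (hb : G.Adj e b) (hc : G.Adj e c) (hab : a ≠ b) (hac : a ≠ c) (hbc : b ≠ c)
    (nab : ¬ G.Adj a b) (nac : ¬ G.Adj a c) (nbc : ¬ G.Adj b c) :
    ¬ IsLineGraphOfBipartite G := by
  rintro ⟨W, H, -, ⟨φ⟩⟩
  have hadj : ∀ u v : Fin N, H.lineGraph.Adj (φ u) (φ v) ↔ G.Adj u v := fun u v => φ.map_adj_iff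
  have := lineGraph_clawFree H (φ e) (φ a) (φ b) (φ c) ((hadj _ _).2 ha) ((hadj _ _).2 hb)
    ((hadj _ _).2 hc) (fun h => hab (φ.injective h))
    (fun h => hac (φ.injective h)) (fun h => hbc (φ.injective h))
  rw [hadj, hadj, hadj] at this
  rcases this with h | h | h
  · exact nab h
  · exact nac h
  · exact nbc h

theorem G_not_line : ¬ IsLineGraphOfBipartite G :=
  not_lineGraph_of_claw G 2 0 8 12 (by rw [G_adj]; decide +kernel) (by rw [G_adj]; decide +kernel)
    (by rw [G_adj]; decide +kernel) (by decide) (by decide) (by decide)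
    (by rw [G_adj]; decide +kernel) (by rw [G_adj]; decide +kernel) (by rw [G_adj]; decide +kernel)

theorem Gc_not_line : ¬ IsLineGraphOfBipartite Gᶜ :=
  not_lineGraph_of_claw Gᶜ 0 5 8 9 (by rw [Gc_adj]; decide +kernel)
    (by rw [Gc_adj]; decide +kernel) (by rw [Gc_adj]; decide +kernel) (by decide) (by decide)
    (by decide) (by rw [Gc_adj]; decide +kernel) (by rw [Gc_adj]; decide +kernel)
    (by rw [Gc_adj]; decide +kernel)

theorem not_two_col {N : ℕ} (G : SimpleGraph (Fin N)) (a b c : Fin N)
    (hab : G.Adj a b) (hac : G.Adj a c) (hbc : G.Adj b c) : ¬ G.Colorable 2 := by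
  rintro ⟨φ⟩
  have h1 := φ.valid hab
  have h2 := φ.valid hac
  have h3 := φ.valid hbc
  generalize φ a = x at *
  generalize φ b = y at *
  generalize φ c = z at *
  revert x y z
  decide

theorem G_not_bip : ¬ G.Colorable 2 :=
  not_two_col G 0 1 2 (by rw [G_adj]; decide +kernel) (by rw [G_adj]; decide +kernel)
    (by rw [G_adj]; decide +kernel)

theorem Gc_not_bip : ¬ Gᶜ.Colorable 2 :=
  not_two_col Gᶜ 0 4 8 (by rw [Gc_adj]; decide +kernel) (by rw [Gc_adj]; decide +kernel)
    (by rw [Gc_adj]; decide +kernel)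

end Pool.Agent.H171R2.EP
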