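import Mathlib

/-!
# A small kernel-friendly checker for reverse unit propagation proofs
Clauses are pairs of bit masks (positive variables, negative variables).
-/

set_option autoImplicit false

namespace Pool.Agent.H171R2.Rup

/-- heap-indexed tree storing clauses -/
inductive Tr where
  | nil : Tr
  | node (p n : ℕ) (l r : Tr) : Tr

/-- lookup; the default clause `(1,1)` is a tautology -/
def Tr.get : Tr → ℕ → ℕ × ℕ
  | .nil, _ => (1, 1)
  | .node p n l r, i =>
    match i with
    | 0 => (p, n)
    | (j+1) =>
      match Nat.beq (Nat.mod j 2) 0 with
      | true => l.get (Nat.div j 2)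
      | false => r.get (Nat.div j 2)

def Tr.ins : Tr → ℕ → ℕ → ℕ → Tr
  | .nil, _, p, n => .node p n .nil .nil
  | .node p' n' l r, i, p, n =>
    match i with
    | 0 => .node p n l r
    | (j+1) =>
      match Nat.beq (Nat.mod j 2) 0 with
      | true => .node p' n' (l.ins (Nat.div j 2) p n) r
      | false => .node p' n' l (r.ins (Nat.div j 2) p n)

/-- a clause is valid under a valuation -/
def Valid (val : ℕ → Prop) (c : ℕ × ℕ) : Prop :=
  ∃ v, (c.1.testBit v = true ∧ val v) ∨ (c.2.testBit v = true ∧ ¬ val v)

theorem valid_taut (val : ℕ → Prop) : Valid val (1, 1) := by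
  refine ⟨0, ?_⟩
  by_cases h : val 0
  · exact Or.inl ⟨by simp, h⟩
  · exact Or.inr ⟨by simp, h⟩

theorem Tr.get_ins_valid (val : ℕ → Prop) (p n : ℕ) (hv : Valid val (p, n)) :
    ∀ (t : Tr) (k : ℕ), (∀ i, Valid val (t.get i)) → ∀ i, Valid val ((t.ins k p n).get i) := by
  intro t
  induction t with
  | nil =>
    intro k _ i
    rw [Tr.ins]
    cases i with
    | zero => exact hv
    | succ j =>
      simp only [Tr.get]
      split <;> exact valid_taut val
  | node p' n' l r ihl ihr =>
    intro k ht i
    have hl : ∀ i, Valid val (l.get i) := by
      intro i
      have := ht (2 * i + 1)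
      have h2 : Nat.beq (Nat.mod (2 * i) 2) 0 = true := by
        rw [Nat.beq_eq]
        change (2 * i) % 2 = 0
        omega
      have h3 : Nat.div (2 * i) 2 = i := by
        change (2 * i) / 2 = i
        omega
      simp only [Tr.get, h2, h3] at this
      exact this
    have hr : ∀ i, Valid val (r.get i) := by
      intro i
      have := ht (2 * i + 1 + 1)
      have h2 : Nat.beq (Nat.mod (2 * i + 1) 2) 0 = false := by
        rw [Bool.eq_false_iff, ne_eq, Nat.beq_eq]
        change ¬ (2 * i + 1) % 2 = 0
        omega
      have h3 : Nat.div (2 * i + 1) 2 = i := by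
        change (2 * i + 1) / 2 = i
        omega
      simp only [Tr.get, h2, h3] at this
      exact this
    have h0 : Valid val (p', n') := ht 0
    cases k with
    | zero =>
      simp only [Tr.ins]
      cases i with
      | zero => exact hv
      | succ j =>
        simp only [Tr.get]
        split
        · exact hl _
        · exact hr _
    | succ k =>
      simp only [Tr.ins]
      split
      · cases i with
        | zero => exact h0
        | succ j =>
          simp only [Tr.get]
          split
          · exact ihl _ hl _
          · exact hr _
      · cases i with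
        | zero => exact h0
        | succ j =>
          simp only [Tr.get]
          split
          · exact hl _
          · exact ihr _ hr _

/-- reverse unit propagation along hints; `fp`: variables known false, `fn`: variables known true -/
def rup (t : Tr) : List ℕ → ℕ → ℕ → Bool
  | [], _, _ => false
  | h :: hs, fp, fn =>
    let c := t.get h
    let rp := Nat.xor c.1 (Nat.land c.1 fp)
    let rn := Nat.xor c.2 (Nat.land c.2 fn)
    match Nat.beq rp 0, Nat.beq rn 0 with
    | true, true => true
    | true, false =>
      match Nat.beq rn (Nat.shiftLeft 1 (Nat.log2 rn)) with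
      | true => rup t hs (Nat.lor fp rn) fn
      | false => false
    | false, true =>
      match Nat.beq rp (Nat.shiftLeft 1 (Nat.log2 rp)) with
      | true => rup t hs fp (Nat.lor fn rp)
      | false => false
    | false, false => false

theorem testBit_diff (c f v : ℕ) :
    (Nat.xor c (Nat.land c f)).testBit v = (c.testBit v && !f.testBit v) := by
  change (c ^^^ (c &&& f)).testBit v = _
  rw [Nat.testBit_xor, Nat.testBit_land]
  cases c.testBit v <;> cases f.testBit v <;> rfl

theorem testBit_shl1 (k v : ℕ) : (Nat.shiftLeft 1 k).testBit v = decide (k = v) := by
  change (1 <<< k).testBit v = _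
  rw [Nat.one_shiftLeft, Nat.testBit_two_pow]

theorem rup_sound (val : ℕ → Prop) (t : Tr) (ht : ∀ i, Valid val (t.get i)) :
    ∀ (hs : List ℕ) (fp fn : ℕ), rup t hs fp fn = true →
      (∀ v, fp.testBit v = true → ¬ val v) → (∀ v, fn.testBit v = true → val v) → False := by
  intro hs
  induction hs with
  | nil => intro fp fn h; simp [rup] at h
  | cons h hs ih =>
    intro fp fn hr hp hn
    rw [rup] at hr
    obtain ⟨v, hv⟩ := ht h
    generalize hc : t.get h = c at *
    -- v is in the residual
    have hres : ((Nat.xor c.1 (Nat.land c.1 fp)).testBit v = true ∧ val v) ∨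
        ((Nat.xor c.2 (Nat.land c.2 fn)).testBit v = true ∧ ¬ val v) := by
      rcases hv with ⟨h1, h2⟩ | ⟨h1, h2⟩
      · left
        refine ⟨?_, h2⟩
        rw [testBit_diff, h1]
        cases hf : fp.testBit v with
        | false => rfl
        | true => exact absurd h2 (hp v hf)
      · right
        refine ⟨?_, h2⟩
        rw [testBit_diff, h1]
        cases hf : fn.testBit v with
        | false => rfl
        | true => exact absurd (hn v hf) h2
    generalize Nat.xor c.1 (Nat.land c.1 fp) = rp at *
    generalize Nat.xor c.2 (Nat.land c.2 fn) = rn at *
    cases hb1 : Nat.beq rp 0 with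
    | true =>
      have e1 : rp = 0 := Nat.eq_of_beq_eq_true hb1
      cases hb2 : Nat.beq rn 0 with
      | true =>
        have e2 : rn = 0 := Nat.eq_of_beq_eq_true hb2
        rw [e1, e2] at hres
        simp at hres
      | false =>
        simp only [hb1, hb2] at hr
        cases hb3 : Nat.beq rn (Nat.shiftLeft 1 (Nat.log2 rn)) with
        | false => simp only [hb3, Bool.false_eq_true] at hr
        | true =>
          simp only [hb3] at hr
          have e3 := Nat.eq_of_beq_eq_true hb3
          have hnv : ¬ val v ∧ rn.testBit v = true := by
            rcases hres with ⟨h1, h2⟩ | ⟨h1, h2⟩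
            · rw [e1] at h1; simp at h1
            · exact ⟨h2, h1⟩
          refine ih _ _ hr ?_ hn
          intro u hu
          have hu' : (fp ||| rn).testBit u = true := hu
          rw [Nat.testBit_lor, Bool.or_eq_true] at hu'
          rcases hu' with hu' | hu'
          · exact hp u hu'
          · rw [e3, testBit_shl1] at hu'
            have h5 := hnv.2
            rw [e3, testBit_shl1] at h5
            have : u = v := (of_decide_eq_true hu').symm.trans (of_decide_eq_true h5)
            rw [this]
            exact hnv.1
    | false =>
      cases hb2 : Nat.beq rn 0 with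
      | false => simp [hb1, hb2] at hr
      | true =>
        have e2 : rn = 0 := Nat.eq_of_beq_eq_true hb2
        simp only [hb1, hb2] at hr
        cases hb3 : Nat.beq rp (Nat.shiftLeft 1 (Nat.log2 rp)) with
        | false => simp only [hb3, Bool.false_eq_true] at hr
        | true =>
          simp only [hb3] at hr
          have e3 := Nat.eq_of_beq_eq_true hb3
          have hnv : val v ∧ rp.testBit v = true := by
            rcases hres with ⟨h1, h2⟩ | ⟨h1, h2⟩
            · exact ⟨h2, h1⟩
            · rw [e2] at h1; simp at h1
          refine ih _ _ hr hp ?_
          intro u hu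
          have hu' : (fn ||| rp).testBit u = true := hu
          rw [Nat.testBit_lor, Bool.or_eq_true] at hu'
          rcases hu' with hu' | hu'
          · exact hn u hu'
          · rw [e3, testBit_shl1] at hu'
            have h5 := hnv.2
            rw [e3, testBit_shl1] at h5
            have : u = v := (of_decide_eq_true hu').symm.trans (of_decide_eq_true h5)
            rw [this]
            exact hnv.1

/-- mask of a list of variables -/
def mask : List ℕ → ℕ
  | [] => 0
  | v :: vs => Nat.lor (Nat.shiftLeft 1 v) (mask vs)

/-- check a list of RUP steps `(positive variables, negative variables, hints)`; the proof is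
accepted when the empty clause is derived. -/
def run (t : Tr) (k : ℕ) : List (List ℕ × List ℕ × List ℕ) → Bool
  | [] => false
  | (ps, ns, hs) :: rest =>
    let p := mask ps
    let n := mask ns
    match rup t hs p n with
    | false => false
    | true =>
      match Nat.beq (Nat.lor p n) 0 with
      | true => true
      | false => run (t.ins k p n) (k+1) rest

theorem run_sound (val : ℕ → Prop) :
    ∀ (st : List (List ℕ × List ℕ × List ℕ)) (t : Tr) (k : ℕ), (∀ i, Valid val (t.get i)) →
      run t k st = true → False := by
  intro st
  induction st with
  | nil => intro t k _ h; simp [run] at h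
  | cons s rest ih =>
    obtain ⟨ps, ns, hs⟩ := s
    intro t k ht h
    rw [run] at h
    cases hr : rup t hs (mask ps) (mask ns) with
    | false => simp [hr] at h
    | true =>
      simp only [hr] at h
      have hvalid : Valid val (mask ps, mask ns) := by
        by_contra hcon
        refine rup_sound val t ht hs _ _ hr ?_ ?_
        · intro v hv hval
          exact hcon ⟨v, Or.inl ⟨hv, hval⟩⟩
        · intro v hv
          by_contra hval
          exact hcon ⟨v, Or.inr ⟨hv, hval⟩⟩
      cases hb : Nat.beq (Nat.lor (mask ps) (mask ns)) 0 with
      | true =>
        have e : mask ps ||| mask ns = 0 := Nat.eq_of_beq_eq_true hb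
        obtain ⟨v, hv⟩ := hvalid
        have h0 : (mask ps ||| mask ns).testBit v = true := by
          rw [Nat.testBit_lor, Bool.or_eq_true]
          rcases hv with hv | hv
          · exact Or.inl hv.1
          · exact Or.inr hv.1
        rw [e] at h0
        simp at h0
      | false =>
        simp only [hb] at h
        exact ih _ _ (Tr.get_ins_valid val _ _ hvalid t k ht) h

end Pool.Agent.H171R2.Rup
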