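import Mathlib
import Pool.Agent.H171R2.RupCore

/-!
# P6-free graphs with an efficient dominating set: semantics of the certificates
-/

set_option autoImplicit false
set_option linter.unusedTactic false
set_option linter.unreachableTactic false

namespace Pool.Agent.H171R2.P6

open SimpleGraph Pool.Agent.H171R2.Rup

/-- A `P₆`-free graph together with the map sending a vertex to its dominator in an efficient
dominating set. -/
structure Setup (V : Type) where
  G : SimpleGraph V
  dom : V → V
  dom_adj : ∀ v, dom v = v ∨ G.Adj (dom v) v
  dom_dom : ∀ v, dom (dom v) = dom v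
  dom_unique : ∀ v d, dom d = d → G.Adj d v → dom v = d
  p6 : ∀ f : Fin 6 → V, ¬ ∀ i j, G.Adj (f i) (f j) ↔ (pathGraph 6).Adj i j

variable {V : Type} (S : Setup V)

/-- distance at least three -/
def Far (u v : V) : Prop := u ≠ v ∧ ¬ S.G.Adj u v ∧ ∀ w, ¬ (S.G.Adj u w ∧ S.G.Adj w v)

/-- distance one or two -/
def Near (u v : V) : Prop := S.G.Adj u v ∨ ∃ w, S.G.Adj u w ∧ S.G.Adj w v

theorem Far.symm {u v : V} (h : Far S u v) : Far S v u :=
  ⟨h.1.symm, fun h' => h.2.1 h'.symm, fun w h' => h.2.2 w ⟨h'.2.symm, h'.1.symm⟩⟩

theorem Near.symm {u v : V} (h : Near S u v) : Near S v u := by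
  rcases h with h | ⟨w, h1, h2⟩
  · exact Or.inl h.symm
  · exact Or.inr ⟨w, h2.symm, h1.symm⟩

theorem Far.dom_ne {u v : V} (h : Far S u v) : S.dom u ≠ S.dom v := by
  intro he
  rcases S.dom_adj u with h1 | h1
  · rcases S.dom_adj v with h2 | h2
    · exact h.1 (by rw [← h1, ← h2, he])
    · rw [← he, h1] at h2
      exact h.2.1 h2
  · rcases S.dom_adj v with h2 | h2
    · rw [he, h2] at h1
      exact h.2.1 h1.symm
    · rw [← he] at h2
      exact h.2.2 _ ⟨h1.symm, h2⟩

/-- the extended graph: ordinary copies and dominator copies -/
def HAdj : V ⊕ V → V ⊕ V → Prop
  | .inl u, .inl v => S.G.Adj u v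
  | .inl u, .inr d => S.dom u = d
  | .inr d, .inl u => S.dom u = d
  | .inr _, .inr _ => False

theorem HAdj_comm (x y : V ⊕ V) : HAdj S x y ↔ HAdj S y x := by
  cases x <;> cases y <;> simp [HAdj, SimpleGraph.adj_comm]

theorem path6_twin (i j : Fin 6) (h : i ≠ j) :
    ∃ k, k ≠ i ∧ k ≠ j ∧ ¬ ((pathGraph 6).Adj i k ↔ (pathGraph 6).Adj j k) := by
  simp only [pathGraph_adj]
  revert i j
  decide

theorem path6_nbr (i : Fin 6) : ∃ k, (pathGraph 6).Adj i k := by
  simp only [pathGraph_adj]
  revert i
  decide

theorem adj_iff_dom {d u : V} (hd : S.dom d = d) (h : u ≠ d) : S.G.Adj u d ↔ S.dom u = d := by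
  constructor
  · intro h1
    exact S.dom_unique u d hd h1.symm
  · intro h1
    rcases S.dom_adj u with h2 | h2
    · exact absurd (h2.symm.trans h1) h
    · rw [h1] at h2
      exact h2.symm

theorem noP6ext (f : Fin 6 → V ⊕ V) : ¬ ∀ i j, HAdj S (f i) (f j) ↔ (pathGraph 6).Adj i j := by
  intro hf
  have hinj : ∀ i j, i ≠ j → f i ≠ f j := by
    intro i j hij he
    obtain ⟨k, -, -, hk⟩ := path6_twin i j hij
    exact hk (by rw [← hf, ← hf, he])
  have hD : ∀ i d, f i = Sum.inr d → S.dom d = d := by
    intro i d hi
    obtain ⟨k, hk⟩ := path6_nbr i
    rw [← hf, hi] at hk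
    cases hx : f k with
    | inl u =>
      rw [hx] at hk
      have : S.dom u = d := hk
      rw [← this, S.dom_dom]
    | inr u =>
      rw [hx] at hk
      exact absurd hk (by simp [HAdj])
  let π : V ⊕ V → V := Sum.elim id id
  refine S.p6 (fun i => π (f i)) ?_
  -- no clash between an ordinary copy and a dominator copy of the same vertex
  have clash : ∀ i j d, f i = Sum.inl d → f j = Sum.inr d → False := by
    intro i j d hi hj
    have hd := hD j d hj
    have hij : i ≠ j := by
      rintro rfl
      rw [hi] at hj
      exact absurd hj (by simp)
    obtain ⟨k, hki, hkj, hk⟩ := path6_twin i j hij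
    apply hk
    rw [← hf, ← hf, hi, hj]
    cases hx : f k with
    | inl u =>
      have hud : u ≠ d := by
        rintro rfl
        exact hinj k i hki (by rw [hx, hi])
      change S.G.Adj d u ↔ S.dom u = d
      rw [SimpleGraph.adj_comm, adj_iff_dom S hd hud]
    | inr u =>
      have hud : u ≠ d := by
        rintro rfl
        exact hinj k j hkj (by rw [hx, hj])
      change S.dom d = u ↔ False
      rw [hd]
      exact ⟨fun h => hud h.symm, False.elim⟩
  intro i j
  rw [← hf]
  cases hx : f i with
  | inl u =>
    cases hy : f j with
    | inl v => exact Iff.rfl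
    | inr v =>
      change S.G.Adj u v ↔ S.dom u = v
      by_cases huv : u = v
      · subst huv
        exact (clash i j u hx hy).elim
      · exact adj_iff_dom S (hD j v hy) huv
  | inr u =>
    cases hy : f j with
    | inl v =>
      change S.G.Adj u v ↔ S.dom v = u
      by_cases huv : v = u
      · subst huv
        exact (clash j i v hy hx).elim
      · rw [SimpleGraph.adj_comm]
        exact adj_iff_dom S (hD i u hx) huv
    | inr v =>
      change S.G.Adj u v ↔ False
      refine ⟨fun h => ?_, False.elim⟩
      have h1 := S.dom_unique v u (hD i u hx) h
      rw [hD j v hy] at h1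
      rw [h1] at h
      exact S.G.loopless.irrefl _ h

/-! ### Certificates -/

/-- index of the variable `kind` (0: adjacency, 1: same dominator) of the names `i`, `j` -/
def vix (k i j : ℕ) : ℕ :=
  match Nat.ble i j with
  | true => Nat.add (Nat.mul 2 (Nat.add (Nat.mul 32 i) j)) k
  | false => Nat.add (Nat.mul 2 (Nat.add (Nat.mul 32 j) i)) k

/-- meaning of a variable -/
def val (w : ℕ → V) (v : ℕ) : Prop :=
  if v % 2 = 0 then S.G.Adj (w (v / 2 / 32)) (w (v / 2 % 32))
  else S.dom (w (v / 2 / 32)) = S.dom (w (v / 2 % 32))

theorem val_vix0 (w : ℕ → V) (i j : ℕ) (hi : i < 32) (hj : j < 32) :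
    val S w (vix 0 i j) ↔ S.G.Adj (w i) (w j) := by
  unfold vix
  cases h : Nat.ble i j with
  | true =>
    change val S w (2 * (32 * i + j)) ↔ _
    rw [val, if_pos (by omega)]
    have e1 : 2 * (32 * i + j) / 2 / 32 = i := by omega
    have e2 : 2 * (32 * i + j) / 2 % 32 = j := by omega
    rw [e1, e2]
  | false =>
    change val S w (2 * (32 * j + i)) ↔ _
    rw [val, if_pos (by omega)]
    have e1 : 2 * (32 * j + i) / 2 / 32 = j := by omega
    have e2 : 2 * (32 * j + i) / 2 % 32 = i := by omega
    rw [e1, e2, SimpleGraph.adj_comm]

theorem val_vix1 (w : ℕ → V) (i j : ℕ) (hi : i < 32) (hj : j < 32) :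
    val S w (vix 1 i j) ↔ S.dom (w i) = S.dom (w j) := by
  unfold vix
  cases h : Nat.ble i j with
  | true =>
    change val S w (2 * (32 * i + j) + 1) ↔ _
    rw [val, if_neg (by omega)]
    have e1 : (2 * (32 * i + j) + 1) / 2 / 32 = i := by omega
    have e2 : (2 * (32 * i + j) + 1) / 2 % 32 = j := by omega
    rw [e1, e2]
  | false =>
    change val S w (2 * (32 * j + i) + 1) ↔ _
    rw [val, if_neg (by omega)]
    have e1 : (2 * (32 * j + i) + 1) / 2 / 32 = j := by omega
    have e2 : (2 * (32 * j + i) + 1) / 2 % 32 = i := by omega
    rw [e1, e2]
    exact ⟨fun h => h.symm, fun h => h.symm⟩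

/-- positive / negative part of the literal of a pair of codes in a `P₆`-clause -/
def pmP (n x y : ℕ) (want : Bool) : ℕ :=
  match Nat.ble 32 n with
  | true => 1
  | false =>
  match Nat.blt x n, Nat.blt y n with
  | true, true => (match want with
    | true => 0
    | false => Nat.shiftLeft 1 (vix 0 x y))
  | true, false =>
    (match Nat.blt (Nat.sub y n) n with
    | false => 1
    | true =>
    match Nat.beq (Nat.sub y n) x with
    | true => (match want with
      | true => 0
      | false => 1)
    | false => (match want with
      | true => 0
      | false => Nat.shiftLeft 1 (vix 1 x (Nat.sub y n))))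
  | false, true =>
    (match Nat.blt (Nat.sub x n) n with
    | false => 1
    | true =>
    match Nat.beq (Nat.sub x n) y with
    | true => (match want with
      | true => 0
      | false => 1)
    | false => (match want with
      | true => 0
      | false => Nat.shiftLeft 1 (vix 1 y (Nat.sub x n))))
  | false, false => (match want with
    | true => 1
    | false => 0)

def pmN (n x y : ℕ) (want : Bool) : ℕ :=
  match Nat.ble 32 n with
  | true => 1
  | false =>
  match Nat.blt x n, Nat.blt y n with
  | true, true => (match want with
    | false => 0
    | true => Nat.shiftLeft 1 (vix 0 x y))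
  | true, false =>
    (match Nat.blt (Nat.sub y n) n with
    | false => 1
    | true =>
    match Nat.beq (Nat.sub y n) x with
    | true => (match want with
      | true => 0
      | false => 1)
    | false => (match want with
      | false => 0
      | true => Nat.shiftLeft 1 (vix 1 x (Nat.sub y n))))
  | false, true =>
    (match Nat.blt (Nat.sub x n) n with
    | false => 1
    | true =>
    match Nat.beq (Nat.sub x n) y with
    | true => (match want with
      | true => 0
      | false => 1)
    | false => (match want with
      | false => 0
      | true => Nat.shiftLeft 1 (vix 1 y (Nat.sub x n))))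
  | false, false => (match want with
    | true => 1
    | false => 0)

/-- the vertex of the extended graph denoted by a code -/
def real (n : ℕ) (w : ℕ → V) (x : ℕ) : V ⊕ V :=
  match Nat.blt x n with
  | true => .inl (w x)
  | false => .inr (S.dom (w (Nat.sub x n)))

theorem shl_bit (v : ℕ) : (Nat.shiftLeft 1 v).testBit v = true := by
  rw [testBit_shl1]; simp

theorem not_valid_one (w : ℕ → V) (P N : ℕ)
    (hP : ∀ v, P.testBit v = true → ¬ val S w v) (hN : ∀ v, N.testBit v = true → val S w v)
    (h1 : P = 1) (h2 : N = 1) : False := by
  have a := hP 0 (by rw [h1]; rfl)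
  have b := hN 0 (by rw [h2]; rfl)
  exact a b

theorem pm_sound (n : ℕ) (w : ℕ → V) (x y : ℕ) (want : Bool)
    (hP : ∀ v, (pmP n x y want).testBit v = true → ¬ val S w v)
    (hN : ∀ v, (pmN n x y want).testBit v = true → val S w v) :
    HAdj S (real S n w x) (real S n w y) ↔ want = true := by
  have one : pmP n x y want = 1 → pmN n x y want = 1 → False :=
    not_valid_one S w _ _ hP hN
  unfold pmP pmN at *
  unfold real
  cases hn : Nat.ble 32 n with
  | true => simp only [hn] at one; first | exact (one rfl rfl).elim | exact (one trivial trivial).elim | exact one.elim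
  | false =>
    have hn32 : n < 32 := by
      by_contra hcon
      have : Nat.ble 32 n = true := Nat.ble_eq_true_of_le (by omega)
      rw [this] at hn
      exact absurd hn (by decide)
    simp only [hn] at one hP hN
    cases hx : Nat.blt x n with
    | true =>
      have hx' : x < n := by rwa [Nat.blt_eq] at hx
      cases hy : Nat.blt y n with
      | true =>
        have hy' : y < n := by rwa [Nat.blt_eq] at hy
        simp only [hx, hy] at one hP hN
        change S.G.Adj (w x) (w y) ↔ _
        cases want with
        | true =>
          have := hN _ (shl_bit _)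
          rw [val_vix0 S w x y (by omega) (by omega)] at this
          simp [this]
        | false =>
          have := hP _ (shl_bit _)
          rw [val_vix0 S w x y (by omega) (by omega)] at this
          simp [this]
      | false =>
        simp only [hx, hy] at one hP hN
        change S.dom (w x) = S.dom (w (y - n)) ↔ _
        cases hz : Nat.blt (Nat.sub y n) n with
        | false => simp only [hz] at one; first | exact (one rfl rfl).elim | exact (one trivial trivial).elim | exact one.elim
        | true =>
          have hz' : Nat.sub y n < n := by rwa [Nat.blt_eq] at hz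
          simp only [hz] at one hP hN
          cases he : Nat.beq (Nat.sub y n) x with
          | true =>
            have he' : Nat.sub y n = x := Nat.eq_of_beq_eq_true he
            simp only [he] at one hP hN
            have he2 : y - n = x := he'
            rw [he2]
            cases want with
            | true => simp
            | false => first | exact (one rfl rfl).elim | exact (one trivial trivial).elim | exact one.elim
          | false =>
            simp only [he] at one hP hN
            cases want with
            | true =>
              have := hN _ (shl_bit _)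
              rw [val_vix1 S w x _ (by omega) (by omega)] at this
              simp only [iff_true]
              exact this
            | false =>
              have := hP _ (shl_bit _)
              rw [val_vix1 S w x _ (by omega) (by omega)] at this
              simp only [Bool.false_eq_true, iff_false]
              exact this
    | false =>
      cases hy : Nat.blt y n with
      | true =>
        have hy' : y < n := by rwa [Nat.blt_eq] at hy
        simp only [hx, hy] at one hP hN
        change S.dom (w y) = S.dom (w (x - n)) ↔ _
        cases hz : Nat.blt (Nat.sub x n) n with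
        | false => simp only [hz] at one; first | exact (one rfl rfl).elim | exact (one trivial trivial).elim | exact one.elim
        | true =>
          have hz' : Nat.sub x n < n := by rwa [Nat.blt_eq] at hz
          simp only [hz] at one hP hN
          cases he : Nat.beq (Nat.sub x n) y with
          | true =>
            have he' : Nat.sub x n = y := Nat.eq_of_beq_eq_true he
            simp only [he] at one hP hN
            have he2 : x - n = y := he'
            rw [he2]
            cases want with
            | true => simp
            | false => first | exact (one rfl rfl).elim | exact (one trivial trivial).elim | exact one.elim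
          | false =>
            simp only [he] at one hP hN
            cases want with
            | true =>
              have := hN _ (shl_bit _)
              rw [val_vix1 S w y _ (by omega) (by omega)] at this
              simp only [iff_true]
              exact this
            | false =>
              have := hP _ (shl_bit _)
              rw [val_vix1 S w y _ (by omega) (by omega)] at this
              simp only [Bool.false_eq_true, iff_false]
              exact this
      | false =>
        simp only [hx, hy] at one
        change False ↔ _
        cases want with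
        | true => first | exact (one rfl rfl).elim | exact (one trivial trivial).elim | exact one.elim
        | false => simp

/-- masks of a `P₆`-clause -/
def p6P (n a b c d e f : ℕ) : ℕ :=
  Nat.lor (pmP n a b true) <| Nat.lor (pmP n b c true) <| Nat.lor (pmP n c d true) <|
  Nat.lor (pmP n d e true) <| Nat.lor (pmP n e f true) <| Nat.lor (pmP n a c false) <|
  Nat.lor (pmP n a d false) <| Nat.lor (pmP n a e false) <| Nat.lor (pmP n a f false) <|
  Nat.lor (pmP n b d false) <| Nat.lor (pmP n b e false) <| Nat.lor (pmP n b f false) <|
  Nat.lor (pmP n c e false) <| Nat.lor (pmP n c f false) (pmP n d f false)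

def p6N (n a b c d e f : ℕ) : ℕ :=
  Nat.lor (pmN n a b true) <| Nat.lor (pmN n b c true) <| Nat.lor (pmN n c d true) <|
  Nat.lor (pmN n d e true) <| Nat.lor (pmN n e f true) <| Nat.lor (pmN n a c false) <|
  Nat.lor (pmN n a d false) <| Nat.lor (pmN n a e false) <| Nat.lor (pmN n a f false) <|
  Nat.lor (pmN n b d false) <| Nat.lor (pmN n b e false) <| Nat.lor (pmN n b f false) <|
  Nat.lor (pmN n c e false) <| Nat.lor (pmN n c f false) (pmN n d f false)

theorem lor_left {x y v : ℕ} (h : x.testBit v = true) : (Nat.lor x y).testBit v = true := by
  change (x ||| y).testBit v = true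
  rw [Nat.testBit_lor, h, Bool.true_or]

theorem lor_right {x y v : ℕ} (h : y.testBit v = true) : (Nat.lor x y).testBit v = true := by
  change (x ||| y).testBit v = true
  rw [Nat.testBit_lor, h, Bool.or_true]

theorem p6_valid (n : ℕ) (w : ℕ → V) (a b c d e f : ℕ) :
    Valid (val S w) (p6P n a b c d e f, p6N n a b c d e f) := by
  by_contra hcon
  have hP : ∀ v, (p6P n a b c d e f).testBit v = true → ¬ val S w v :=
    fun v h1 h2 => hcon ⟨v, Or.inl ⟨h1, h2⟩⟩
  have hN : ∀ v, (p6N n a b c d e f).testBit v = true → val S w v := by
    intro v h1
    by_contra h2
    exact hcon ⟨v, Or.inr ⟨h1, h2⟩⟩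
  unfold p6P at hP
  unfold p6N at hN
  have ab := pm_sound S n w a b true (fun v h => hP v (lor_left h)) (fun v h => hN v (lor_left h))
  replace hP := fun v h => hP v (lor_right h)
  replace hN := fun v h => hN v (lor_right h)
  have bc := pm_sound S n w b c true (fun v h => hP v (lor_left h)) (fun v h => hN v (lor_left h))
  replace hP := fun v h => hP v (lor_right h)
  replace hN := fun v h => hN v (lor_right h)
  have cd := pm_sound S n w c d true (fun v h => hP v (lor_left h)) (fun v h => hN v (lor_left h))
  replace hP := fun v h => hP v (lor_right h)
  replace hN := fun v h => hN v (lor_right h)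
  have de := pm_sound S n w d e true (fun v h => hP v (lor_left h)) (fun v h => hN v (lor_left h))
  replace hP := fun v h => hP v (lor_right h)
  replace hN := fun v h => hN v (lor_right h)
  have ef := pm_sound S n w e f true (fun v h => hP v (lor_left h)) (fun v h => hN v (lor_left h))
  replace hP := fun v h => hP v (lor_right h)
  replace hN := fun v h => hN v (lor_right h)
  have ac := pm_sound S n w a c false (fun v h => hP v (lor_left h)) (fun v h => hN v (lor_left h))
  replace hP := fun v h => hP v (lor_right h)
  replace hN := fun v h => hN v (lor_right h)
  have ad := pm_sound S n w a d false (fun v h => hP v (lor_left h)) (fun v h => hN v (lor_left h))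
  replace hP := fun v h => hP v (lor_right h)
  replace hN := fun v h => hN v (lor_right h)
  have ae := pm_sound S n w a e false (fun v h => hP v (lor_left h)) (fun v h => hN v (lor_left h))
  replace hP := fun v h => hP v (lor_right h)
  replace hN := fun v h => hN v (lor_right h)
  have af := pm_sound S n w a f false (fun v h => hP v (lor_left h)) (fun v h => hN v (lor_left h))
  replace hP := fun v h => hP v (lor_right h)
  replace hN := fun v h => hN v (lor_right h)
  have bd := pm_sound S n w b d false (fun v h => hP v (lor_left h)) (fun v h => hN v (lor_left h))
  replace hP := fun v h => hP v (lor_right h)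
  replace hN := fun v h => hN v (lor_right h)
  have be := pm_sound S n w b e false (fun v h => hP v (lor_left h)) (fun v h => hN v (lor_left h))
  replace hP := fun v h => hP v (lor_right h)
  replace hN := fun v h => hN v (lor_right h)
  have bf := pm_sound S n w b f false (fun v h => hP v (lor_left h)) (fun v h => hN v (lor_left h))
  replace hP := fun v h => hP v (lor_right h)
  replace hN := fun v h => hN v (lor_right h)
  have ce := pm_sound S n w c e false (fun v h => hP v (lor_left h)) (fun v h => hN v (lor_left h))
  replace hP := fun v h => hP v (lor_right h)
  replace hN := fun v h => hN v (lor_right h)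
  have cf := pm_sound S n w c f false (fun v h => hP v (lor_left h)) (fun v h => hN v (lor_left h))
  have df := pm_sound S n w d f false (fun v h => hP v (lor_right h)) (fun v h => hN v (lor_right h))
  refine noP6ext S ![real S n w a, real S n w b, real S n w c, real S n w d, real S n w e,
    real S n w f] ?_
  have irr : ∀ x, ¬ HAdj S x x := by
    intro x
    cases x with
    | inl u => exact S.G.loopless.irrefl u
    | inr u => exact fun h => h
  intro i j
  rw [pathGraph_adj]
  have ba := (HAdj_comm S _ _).trans ab
  have cb := (HAdj_comm S _ _).trans bc
  have dc := (HAdj_comm S _ _).trans cd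
  have ed := (HAdj_comm S _ _).trans de
  have fe := (HAdj_comm S _ _).trans ef
  have ca := (HAdj_comm S _ _).trans ac
  have da := (HAdj_comm S _ _).trans ad
  have ea := (HAdj_comm S _ _).trans ae
  have fa := (HAdj_comm S _ _).trans af
  have db := (HAdj_comm S _ _).trans bd
  have eb := (HAdj_comm S _ _).trans be
  have fb := (HAdj_comm S _ _).trans bf
  have ec := (HAdj_comm S _ _).trans ce
  have fc := (HAdj_comm S _ _).trans cf
  have fd := (HAdj_comm S _ _).trans df
  clear hP hN hcon
  generalize real S n w a = A at *
  generalize real S n w b = B at *
  generalize real S n w c = C at *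
  generalize real S n w d = D at *
  generalize real S n w e = E at *
  generalize real S n w f = F at *
  fin_cases i <;> fin_cases j <;>
    simp [ab, bc, cd, de, ef, ac, ad, ae, af, bd, be, bf, ce, cf, df, ba, cb, dc, ed, fe, ca, da,
      ea, fa, db, eb, fb, ec, fc, fd, irr]

end Pool.Agent.H171R2.P6
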