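import Mathlib
import Pool.Agent.H171R2.P6Sem

/-!
# Certificates that a class pattern is impossible, and their soundness
-/

set_option autoImplicit false

namespace Pool.Agent.H171R2.P6

open SimpleGraph Pool.Agent.H171R2.Rup

inductive Ax where
  | P (a b c d e f : ℕ)
  | T (i j k : ℕ)
  | FE (i j : ℕ)
  | FN (i j v : ℕ)
  | CL (i j : ℕ)
  | MD (q side : ℕ)

structure Cert where
  m : ℕ
  F : List (ℕ × ℕ)
  mids : List (ℕ × ℕ)
  cls : List ℕ
  ax : List Ax
  steps : List (List ℕ × List ℕ × List ℕ)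

def memF : List (ℕ × ℕ) → ℕ → ℕ → Bool
  | [], _, _ => false
  | p :: ps, i, j =>
    match Nat.beq p.1 i, Nat.beq p.2 j with
    | true, true => true
    | _, _ => memF ps i j

theorem memF_sound (i j : ℕ) : ∀ l : List (ℕ × ℕ), memF l i j = true → (i, j) ∈ l := by
  intro l
  induction l with
  | nil => intro h; simp [memF] at h
  | cons p ps ih =>
    intro h
    rw [memF] at h
    cases h1 : Nat.beq p.1 i with
    | false =>
      simp only [h1] at h
      exact List.mem_cons_of_mem _ (ih h)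
    | true =>
      cases h2 : Nat.beq p.2 j with
      | false =>
        simp only [h1, h2] at h
        exact List.mem_cons_of_mem _ (ih h)
      | true =>
        have e1 := Nat.eq_of_beq_eq_true h1
        have e2 := Nat.eq_of_beq_eq_true h2
        have : p = (i, j) := Prod.ext e1 e2
        rw [this]
        exact List.mem_cons_self

def guard (b : Bool) (c : ℕ × ℕ) : ℕ × ℕ :=
  match b with
  | true => c
  | false => (1, 1)

theorem guard_valid {val : ℕ → Prop} {b : Bool} {c : ℕ × ℕ} (h : b = true → Valid val c) :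
    Valid val (guard b c) := by
  cases b with
  | true => exact h rfl
  | false => exact valid_taut val

def lt32 (i : ℕ) : Bool := Nat.blt i 32

theorem lt32_iff {i : ℕ} (h : lt32 i = true) : i < 32 := by
  rwa [lt32, Nat.blt_eq] at h

def sh (v : ℕ) : ℕ := Nat.shiftLeft 1 v

def axM (m n : ℕ) (F mids : List (ℕ × ℕ)) (cls : List ℕ) : Ax → ℕ × ℕ
  | .P a b c d e f => (p6P n a b c d e f, p6N n a b c d e f)
  | .T i j k =>
    guard (lt32 i && lt32 j && lt32 k) (sh (vix 1 i k), Nat.lor (sh (vix 1 i j)) (sh (vix 1 j k)))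
  | .FE i j => guard (lt32 i && lt32 j && memF F i j) (0, sh (vix 0 i j))
  | .FN i j v =>
    guard (lt32 i && lt32 j && lt32 v && memF F i j)
      (0, Nat.lor (sh (vix 0 i v)) (sh (vix 0 v j)))
  | .CL i j =>
    guard (lt32 i && lt32 j && Nat.blt i m && Nat.blt j m)
      (match Nat.beq (cls.getD i 0) (cls.getD j 0) with
        | true => (sh (vix 1 i j), 0)
        | false => (0, sh (vix 1 i j)))
  | .MD q side =>
    match mids[q]? with
    | none => (1, 1)
    | some p =>
      guard (lt32 p.1 && lt32 p.2 && lt32 (Nat.add m q))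
        (match Nat.beq side 0 with
          | true => (Nat.lor (sh (vix 0 p.1 p.2)) (sh (vix 0 p.1 (Nat.add m q))), 0)
          | false => (Nat.lor (sh (vix 0 p.1 p.2)) (sh (vix 0 p.2 (Nat.add m q))), 0))

section

variable {V : Type} (S : Setup V)

/-- what the named vertices have to satisfy -/
structure Ok (m : ℕ) (F mids : List (ℕ × ℕ)) (cls : List ℕ) (w : ℕ → V) : Prop where
  hF : ∀ p ∈ F, Far S (w p.1) (w p.2)
  hC : ∀ i j, i < m → j < m → (S.dom (w i) = S.dom (w j) ↔ cls.getD i 0 = cls.getD j 0)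
  hM : ∀ q p, mids[q]? = some p → S.G.Adj (w p.1) (w p.2) ∨
    (S.G.Adj (w p.1) (w (m + q)) ∧ S.G.Adj (w p.2) (w (m + q)))

theorem sh_bit (v : ℕ) : (sh v).testBit v = true := shl_bit v

theorem axM_valid (m n : ℕ) (F mids : List (ℕ × ℕ)) (cls : List ℕ) (w : ℕ → V)
    (hok : Ok S m F mids cls w) (a : Ax) : Valid (val S w) (axM m n F mids cls a) := by
  cases a with
  | P a b c d e f => exact p6_valid S n w a b c d e f
  | T i j k =>
    refine guard_valid fun h => ?_
    simp only [Bool.and_eq_true] at h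
    obtain ⟨⟨hi, hj⟩, hk⟩ := h
    have hi := lt32_iff hi
    have hj := lt32_iff hj
    have hk := lt32_iff hk
    by_cases h1 : S.dom (w i) = S.dom (w j)
    · by_cases h2 : S.dom (w j) = S.dom (w k)
      · exact ⟨_, Or.inl ⟨sh_bit _, (val_vix1 S w i k hi hk).2 (h1.trans h2)⟩⟩
      · exact ⟨_, Or.inr ⟨lor_right (sh_bit _), fun h => h2 ((val_vix1 S w j k hj hk).1 h)⟩⟩
    · exact ⟨_, Or.inr ⟨lor_left (sh_bit _), fun h => h1 ((val_vix1 S w i j hi hj).1 h)⟩⟩
  | FE i j =>
    refine guard_valid fun h => ?_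
    simp only [Bool.and_eq_true] at h
    obtain ⟨⟨hi, hj⟩, hF⟩ := h
    have hfar := hok.hF _ (memF_sound i j F hF)
    exact ⟨_, Or.inr ⟨sh_bit _, fun h => hfar.2.1 ((val_vix0 S w i j (lt32_iff hi)
      (lt32_iff hj)).1 h)⟩⟩
  | FN i j v =>
    refine guard_valid fun h => ?_
    simp only [Bool.and_eq_true] at h
    obtain ⟨⟨⟨hi, hj⟩, hv⟩, hF⟩ := h
    have hi := lt32_iff hi
    have hj := lt32_iff hj
    have hv := lt32_iff hv
    have hfar := hok.hF _ (memF_sound i j F hF)
    by_cases h1 : S.G.Adj (w i) (w v)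
    · refine ⟨_, Or.inr ⟨lor_right (sh_bit _), fun h => ?_⟩⟩
      exact hfar.2.2 _ ⟨h1, (val_vix0 S w v j hv hj).1 h⟩
    · exact ⟨_, Or.inr ⟨lor_left (sh_bit _), fun h => h1 ((val_vix0 S w i v hi hv).1 h)⟩⟩
  | CL i j =>
    refine guard_valid fun h => ?_
    simp only [Bool.and_eq_true, Nat.blt_eq] at h
    obtain ⟨⟨⟨hi, hj⟩, him⟩, hjm⟩ := h
    have hi := lt32_iff hi
    have hj := lt32_iff hj
    have hc := hok.hC i j him hjm
    cases hb : Nat.beq (cls.getD i 0) (cls.getD j 0) with
    | true =>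
      have := Nat.eq_of_beq_eq_true hb
      exact ⟨_, Or.inl ⟨sh_bit _, (val_vix1 S w i j hi hj).2 (hc.2 this)⟩⟩
    | false =>
      refine ⟨_, Or.inr ⟨sh_bit _, fun h => ?_⟩⟩
      have := hc.1 ((val_vix1 S w i j hi hj).1 h)
      rw [this] at hb
      simp at hb
  | MD q side =>
    rw [axM]
    cases hq : mids[q]? with
    | none => exact valid_taut _
    | some p =>
      refine guard_valid fun h => ?_
      simp only [Bool.and_eq_true] at h
      obtain ⟨⟨hi, hj⟩, hmq⟩ := h
      have hi := lt32_iff hi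
      have hj := lt32_iff hj
      have hmq := lt32_iff hmq
      have hm := hok.hM q p hq
      cases hs : Nat.beq side 0 with
      | true =>
        rcases hm with h1 | ⟨h1, h2⟩
        · exact ⟨_, Or.inl ⟨lor_left (sh_bit _), (val_vix0 S w _ _ hi hj).2 h1⟩⟩
        · exact ⟨_, Or.inl ⟨lor_right (sh_bit _), (val_vix0 S w _ _ hi hmq).2 h1⟩⟩
      | false =>
        rcases hm with h1 | ⟨h1, h2⟩
        · exact ⟨_, Or.inl ⟨lor_left (sh_bit _), (val_vix0 S w _ _ hi hj).2 h1⟩⟩
        · exact ⟨_, Or.inl ⟨lor_right (sh_bit _), (val_vix0 S w _ _ hj hmq).2 h2⟩⟩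

end

def buildT (m n : ℕ) (F mids : List (ℕ × ℕ)) (cls : List ℕ) : List Ax → Tr → ℕ → Tr
  | [], t, _ => t
  | a :: as, t, k =>
    let c := axM m n F mids cls a
    buildT m n F mids cls as (t.ins k c.1 c.2) (k + 1)

def Cert.check (C : Cert) : Bool :=
  run (buildT C.m (C.m + C.mids.length) C.F C.mids C.cls C.ax .nil 0) C.ax.length C.steps

section

variable {V : Type} (S : Setup V)

theorem buildT_valid (m n : ℕ) (F mids : List (ℕ × ℕ)) (cls : List ℕ) (w : ℕ → V)
    (hok : Ok S m F mids cls w) : ∀ (l : List Ax) (t : Tr) (k : ℕ),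
    (∀ i, Valid (val S w) (t.get i)) →
      ∀ i, Valid (val S w) ((buildT m n F mids cls l t k).get i) := by
  intro l
  induction l with
  | nil => intro t k ht i; exact ht i
  | cons a as ih =>
    intro t k ht
    rw [buildT]
    exact ih _ _ (Tr.get_ins_valid _ _ _ (axM_valid S m n F mids cls w hok a) t k ht)

theorem Cert.sound (C : Cert) (hc : C.check = true) (w : ℕ → V)
    (hok : Ok S C.m C.F C.mids C.cls w) : False := by
  refine run_sound (val S w) _ _ _ ?_ hc
  refine buildT_valid S _ _ _ _ _ w hok _ _ _ ?_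
  intro i
  exact valid_taut _

open Classical in
/-- Soundness in terms of the first `m` vertices: if they satisfy the distance requirements, then
they do not have the class pattern `cls`. -/
theorem Cert.sound' (C : Cert) (hc : C.check = true)
    (hlt : ∀ p ∈ C.F ++ C.mids, p.1 < C.m ∧ p.2 < C.m) (a : ℕ → V)
    (hF : ∀ p ∈ C.F, Far S (a p.1) (a p.2))
    (hN : ∀ p ∈ C.mids, Near S (a p.1) (a p.2))
    (hC : ∀ i j, i < C.m → j < C.m →
      (S.dom (a i) = S.dom (a j) ↔ C.cls.getD i 0 = C.cls.getD j 0)) : False := by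
  let mid : V → V → V := fun u v =>
    if h : ∃ w, S.G.Adj u w ∧ S.G.Adj w v then h.choose else u
  let w : ℕ → V := fun t =>
    if t < C.m then a t else
      match C.mids[t - C.m]? with
      | some p => mid (a p.1) (a p.2)
      | none => a 0
  have hw : ∀ t, t < C.m → w t = a t := fun t ht => if_pos ht
  refine C.sound S hc w ⟨?_, ?_, ?_⟩
  · intro p hp
    obtain ⟨h1, h2⟩ := hlt p (List.mem_append_left _ hp)
    rw [hw _ h1, hw _ h2]
    exact hF p hp
  · intro i j hi hj
    rw [hw _ hi, hw _ hj]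
    exact hC i j hi hj
  · intro q p hq
    have hp : p ∈ C.mids := List.mem_of_getElem? hq
    obtain ⟨h1, h2⟩ := hlt p (List.mem_append_right _ hp)
    have e : w (C.m + q) = mid (a p.1) (a p.2) := by
      change (if C.m + q < C.m then _ else _) = _
      rw [if_neg (by omega)]
      have : C.m + q - C.m = q := by omega
      rw [this, hq]
    rw [hw _ h1, hw _ h2, e]
    rcases hN p hp with h | h
    · exact Or.inl h
    · right
      have e2 : mid (a p.1) (a p.2) = h.choose := dif_pos h
      rw [e2]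
      exact ⟨h.choose_spec.1, h.choose_spec.2.symm⟩

end

end Pool.Agent.H171R2.P6
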