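import Mathlib

/-!
# The combinatorial part: no odd cyclic sequence satisfies the pattern restrictions
-/

set_option autoImplicit false

namespace Pool.Agent.H171R2.P6

variable {V : Type}

/-- the restrictions on the cyclic sequence of classes -/
structure Pat (M : ℕ) (c : ℕ → V) : Prop where
  per : ∀ i, c (i + M) = c i
  ne : ∀ i, c i ≠ c (i + 1)
  T1 : ∀ i j, i + 3 ≤ j → j + 3 ≤ i + M → ¬ [c i, c (i+1), c j, c (j+1)].Nodup
  T2 : ∀ i j, i + 5 ≤ j → j + 3 ≤ i + M → [c i, c (i+1), c (i+2), c (i+3)].Nodup →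
    ¬ (c j = c (i+1) ∧ c (j+1) = c (i+2))
  T2r : ∀ i j, i + 5 ≤ j → j + 3 ≤ i + M → [c i, c (i+1), c (i+2), c (i+3)].Nodup →
    ¬ (c j = c (i+2) ∧ c (j+1) = c (i+1))
  T3 : ∀ i, [c i, c (i+1), c (i+2), c (i+3)].Nodup → ¬ (c (i+4) = c i ∧ c (i+5) = c (i+1))
  T4 : ∀ i, [c i, c (i+1), c (i+2), c (i+3)].Nodup → ¬ (c (i+4) = c (i+1) ∧ c (i+5) = c i)
  T5 : ∀ i, [c (i+2), c (i+3), c (i+4), c (i+5)].Nodup → ¬ (c i = c (i+3) ∧ c (i+1) = c (i+4))
  T5r : ∀ i, [c i, c (i+1), c (i+2), c (i+3)].Nodup → ¬ (c (i+4) = c (i+1) ∧ c (i+5) = c (i+2))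

theorem far_edge {M : ℕ} {c : ℕ → V} (P : Pat M c) (i : ℕ)
    (hd : [c i, c (i+1), c (i+2), c (i+3)].Nodup) (j : ℕ) (h1 : i + 5 ≤ j) (h2 : j + 3 ≤ i + M) :
    (c j = c (i+1) ∧ c (j+1) = c (i+3)) ∨ (c j = c (i+3) ∧ c (j+1) = c (i+1)) ∨
    (c j = c i ∧ c (j+1) = c (i+2)) ∨ (c j = c (i+2) ∧ c (j+1) = c i) := by
  have a1 := P.T1 i j (by omega) (by omega)
  have a2 := P.T1 (i+1) j (by omega) (by omega)
  have a3 := P.T1 (i+2) j (by omega) (by omega)
  have a4 := P.T2 i j h1 h2 hd
  have a5 := P.T2r i j h1 h2 hd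
  have a6 := P.ne j
  simp only [List.nodup_cons, List.mem_cons, List.not_mem_nil, or_false, not_or,
    List.nodup_nil, not_false_eq_true, and_true] at hd a1 a2 a3
  have e1 : i + 1 + 1 = i + 2 := by omega
  have e2 : i + 2 + 1 = i + 3 := by omega
  rw [e1] at a2
  rw [e2] at a3
  generalize c i = A at *
  generalize c (i+1) = B at *
  generalize c (i+2) = C at *
  generalize c (i+3) = D at *
  generalize c j = X at *
  generalize c (j+1) = Y at *
  clear P h1 h2 e1 e2
  grind

theorem stepA {M : ℕ} {c : ℕ → V} (P : Pat M c) (hM : 9 ≤ M) (hodd : Odd M) (i : ℕ) :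
    ¬ [c i, c (i+1), c (i+2), c (i+3)].Nodup := by
  intro hd
  have hfe := far_edge P i hd
  have hd' := hd
  simp only [List.nodup_cons, List.mem_cons, List.not_mem_nil, or_false, not_or,
    List.nodup_nil, not_false_eq_true, and_true] at hd'
  -- classes of i+4, i+5
  have key1 : (c (i+5) = c (i+2)) ∨ (c (i+5) = c (i+3)) := by
    have b1 := P.T1 i (i+3) (by omega) (by omega)
    have b2 := P.T1 (i+1) (i+4) (by omega) (by omega)
    have b3 := P.T3 i hd
    have b4 := P.T4 i hd
    have b5 := P.T5r i hd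
    have b6 := P.ne (i+3)
    have b7 := P.ne (i+4)
    have b8 := hfe (i+5) (by omega) (by omega)
    simp only [List.nodup_cons, List.mem_cons, List.not_mem_nil, or_false, not_or,
      List.nodup_nil, not_false_eq_true, and_true] at b1 b2
    have e1 : i + 1 + 1 = i + 2 := by omega
    have e2 : i + 3 + 1 = i + 4 := by omega
    have e3 : i + 4 + 1 = i + 5 := by omega
    have e4 : i + 5 + 1 = i + 6 := by omega
    rw [e1, e3] at b2
    rw [e2] at b1 b6
    rw [e3] at b7
    rw [e4] at b8
    generalize c i = A at *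
    generalize c (i+1) = B at *
    generalize c (i+2) = C at *
    generalize c (i+3) = D at *
    generalize c (i+4) = X at *
    generalize c (i+5) = Y at *
    generalize c (i+6) = Z at *
    clear P hfe hd e1 e2 e3 e4
    grind
  -- propagate
  have key2 : ∀ t, i + 5 + 2 * t + 2 ≤ i + M → c (i + 5 + 2 * t) = c (i+5) := by
    intro t
    induction t with
    | zero => intro _; rfl
    | succ t ih =>
      intro ht
      have h1 := ih (by omega)
      have h2 := hfe (i + 5 + 2 * t) (by omega) (by omega)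
      have h3 := hfe (i + 5 + 2 * t + 1) (by omega) (by omega)
      have e : i + 5 + 2 * (t + 1) = i + 5 + 2 * t + 1 + 1 := by omega
      rw [e]
      rw [h1] at h2
      generalize c (i + 5 + 2 * t + 1) = X at *
      generalize c (i + 5 + 2 * t + 1 + 1) = Y at *
      generalize c i = A at *
      generalize c (i+1) = B at *
      generalize c (i+2) = C at *
      generalize c (i+3) = D at *
      generalize c (i+5) = Z at *
      clear P hfe hd h1 ih e
      grind
  obtain ⟨t, ht⟩ := hodd
  have key3 : c (i + M - 2) = c (i+5) := by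
    have := key2 (t - 3) (by omega)
    have e : i + 5 + 2 * (t - 3) = i + M - 2 := by omega
    rwa [e] at this
  -- the other side
  have key4 : c (i + M - 2) = c i ∨ c (i + M - 2) = c (i+1) := by
    have f0 : c (i + M) = c i := P.per i
    have f1 : c (i + M + 1) = c (i+1) := by
      have := P.per (i+1)
      rwa [show i + 1 + M = i + M + 1 by omega] at this
    have f2 : c (i + M + 2) = c (i+2) := by
      have := P.per (i+2)
      rwa [show i + 2 + M = i + M + 2 by omega] at this
    have f3 : c (i + M + 3) = c (i+3) := by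
      have := P.per (i+3)
      rwa [show i + 3 + M = i + M + 3 by omega] at this
    have b1 := P.T1 (i+2) (i + M - 1) (by omega) (by omega)
    have b2 := P.T1 (i+1) (i + M - 2) (by omega) (by omega)
    have b3 := P.T3 (i + M - 2)
    have b4 := P.T4 (i + M - 2)
    have b5 := P.T5 (i + M - 2)
    have b6 := P.ne (i + M - 2)
    have b7 := P.ne (i + M - 1)
    have b8 := hfe (i + M - 3) (by omega) (by omega)
    have e0 : i + M - 2 + 1 = i + M - 1 := by omega
    have e1 : i + M - 2 + 2 = i + M := by omega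
    have e2 : i + M - 2 + 3 = i + M + 1 := by omega
    have e3 : i + M - 2 + 4 = i + M + 2 := by omega
    have e4 : i + M - 2 + 5 = i + M + 3 := by omega
    have e5 : i + M - 1 + 1 = i + M := by omega
    have e6 : i + M - 3 + 1 = i + M - 2 := by omega
    have e7 : i + 1 + 1 = i + 2 := by omega
    have e8 : i + 2 + 1 = i + 3 := by omega
    rw [e0, e1, e2, e3, e4, f0, f1, f2, f3] at b3 b4 b5
    rw [e5, e8, f0] at b1
    rw [e0, e7] at b2
    rw [e0] at b6
    rw [e5, f0] at b7
    rw [e6] at b8
    simp only [List.nodup_cons, List.mem_cons, List.not_mem_nil, or_false, not_or,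
      List.nodup_nil, not_false_eq_true, and_true] at b1 b2 b3 b4 b5
    clear f0 f1 f2 f3 e0 e1 e2 e3 e4 e5 e6 e7 e8 key1 key2 key3 hfe hd P
    generalize c i = A at *
    generalize c (i+1) = B at *
    generalize c (i+2) = C at *
    generalize c (i+3) = D at *
    generalize c (i + M - 3) = X at *
    generalize c (i + M - 2) = Y at *
    generalize c (i + M - 1) = Z at *
    grind
  rw [key3] at key4
  rcases key1 with h | h <;> rcases key4 with h' | h'
  · exact hd'.1.2.1 (h'.symm.trans h)
  · exact hd'.2.1.1 (h'.symm.trans h)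
  · exact hd'.1.2.2 (h'.symm.trans h)
  · exact hd'.2.1.2 (h'.symm.trans h)


theorem stepA7 {c : ℕ → V} (P : Pat 7 c) (i : ℕ) :
    ¬ [c i, c (i+1), c (i+2), c (i+3)].Nodup := by
  intro hd
  have f0 : c (i + 7) = c i := P.per i
  have f1 : c (i + 8) = c (i+1) := P.per (i+1)
  have f2 : c (i + 9) = c (i+2) := P.per (i+2)
  have f3 : c (i + 10) = c (i+3) := P.per (i+3)
  have b1 := P.T1 i (i+3) (by omega) (by omega)
  have b2 := P.T1 (i+1) (i+4) (by omega) (by omega)
  have b3 := P.T1 (i+1) (i+5) (by omega) (by omega)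
  have b4 := P.T1 (i+2) (i+6) (by omega) (by omega)
  have b5 := P.T1 (i+3) (i+6) (by omega) (by omega)
  have b6 := P.T3 i hd
  have b7 := P.T4 i hd
  have b8 := P.T5r i hd
  have b9 := P.T3 (i+6)
  have b10 := P.T4 (i+5)
  have n3 := P.ne (i+3)
  have n4 := P.ne (i+4)
  have n5 := P.ne (i+5)
  have n6 := P.ne (i+6)
  have e1 : i + 1 + 1 = i + 2 := by omega
  have e2 : i + 2 + 1 = i + 3 := by omega
  have e3 : i + 3 + 1 = i + 4 := by omega
  have e4 : i + 4 + 1 = i + 5 := by omega
  have e5 : i + 5 + 1 = i + 6 := by omega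
  have e6 : i + 6 + 1 = i + 7 := by omega
  have g1 : i + 6 + 2 = i + 8 := by omega
  have g2 : i + 6 + 3 = i + 9 := by omega
  have g3 : i + 6 + 4 = i + 10 := by omega
  have g4 : i + 6 + 5 = i + 11 := by omega
  have g5 : i + 5 + 2 = i + 7 := by omega
  have g6 : i + 5 + 3 = i + 8 := by omega
  have g7 : i + 5 + 4 = i + 9 := by omega
  have g8 : i + 5 + 5 = i + 10 := by omega
  have f4 : c (i + 11) = c (i+4) := P.per (i+4)
  rw [e3] at b1
  rw [e1, e4] at b2
  rw [e1, e5] at b3
  rw [e2, e6, f0] at b4
  rw [e3, e6, f0] at b5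
  rw [e6, g1, g2, g3, g4, f0, f1, f2, f3, f4] at b9
  rw [e5, g5, g6, g7, g8, f0, f1, f2, f3] at b10
  rw [e3] at n3
  rw [e4] at n4
  rw [e5] at n5
  rw [e6, f0] at n6
  simp only [List.nodup_cons, List.mem_cons, List.not_mem_nil, or_false, not_or,
    List.nodup_nil, not_false_eq_true, and_true] at hd b1 b2 b3 b4 b5 b9 b10
  clear f0 f1 f2 f3 f4 e1 e2 e3 e4 e5 e6 g1 g2 g3 g4 g5 g6 g7 g8 P
  generalize c i = A at *
  generalize c (i+1) = B at *
  generalize c (i+2) = C at *
  generalize c (i+3) = D at *
  generalize c (i+4) = X at *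
  generalize c (i+5) = Y at *
  generalize c (i+6) = Z at *
  grind

/-- a sequence of odd period has three consecutive distinct values -/
theorem exists_rainbow {M : ℕ} {c : ℕ → V} (P : Pat M c) (hodd : Odd M) :
    ∃ r, c r ≠ c (r + 2) := by
  by_contra hcon
  push Not at hcon
  have h : ∀ t, c (2 * t) = c 0 := by
    intro t
    induction t with
    | zero => rfl
    | succ t ih => rw [← ih, show 2 * (t+1) = 2 * t + 2 by omega, ← hcon]
  obtain ⟨t, ht⟩ := hodd
  have h1 := h (t + 1)
  have h2 := P.per 1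
  have h3 := P.ne 0
  rw [show 2 * (t+1) = 1 + M by omega, h2] at h1
  exact h3 h1.symm

/-- not every pair of consecutive terms contains a given value -/
theorem exists_edge_avoid {M : ℕ} {c : ℕ → V} (P : Pat M c) (hodd : Odd M) (B : V) (r : ℕ) :
    ∃ j, r ≤ j ∧ c j ≠ B ∧ c (j+1) ≠ B := by
  by_contra hcon
  push Not at hcon
  -- from some point on, B at every second position
  have key : ∀ p, r ≤ p → c p = B → False := by
    intro p hp hB
    have h : ∀ t, c (p + 2 * t) = B := by
      intro t
      induction t with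
      | zero => exact hB
      | succ t ih =>
        have h1 : c (p + 2 * t + 1) ≠ B := by
          rw [← ih]
          exact (P.ne _).symm
        have := hcon (p + 2 * t + 1) (by omega) h1
        rw [show p + 2 * (t+1) = p + 2 * t + 1 + 1 by omega]
        exact this
    obtain ⟨t, ht⟩ := hodd
    have h1 := h (t + 1)
    rw [show p + 2 * (t+1) = p + 1 + M by omega, P.per] at h1
    exact P.ne p (hB.trans h1.symm)
  by_cases h : c r = B
  · exact key r le_rfl h
  · exact key (r+1) (by omega) (hcon r le_rfl h)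

/-- all pairs of consecutive terms share a value -/
theorem edges_meet {M : ℕ} {c : ℕ → V} (P : Pat M c) (hM : 7 ≤ M)
    (hA : ∀ i, ¬ [c i, c (i+1), c (i+2), c (i+3)].Nodup) (i j : ℕ) (hij : i ≤ j)
    (hj : j < i + M) : c i = c j ∨ c i = c (j+1) ∨ c (i+1) = c j ∨ c (i+1) = c (j+1) := by
  rcases Nat.lt_or_ge j (i + 3) with h | h
  · obtain rfl | rfl | rfl : j = i ∨ j = i + 1 ∨ j = i + 2 := by omega
    · exact Or.inl rfl
    · exact Or.inr (Or.inr (Or.inl rfl))
    · have h1 := hA i
      have n0 := P.ne i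
      have n1 := P.ne (i+1)
      have n2 := P.ne (i+2)
      rw [show i + 1 + 1 = i + 2 by omega] at n1
      rw [show i + 2 + 1 = i + 3 by omega] at n2 ⊢
      simp only [List.nodup_cons, List.mem_cons, List.not_mem_nil, or_false, not_or,
        List.nodup_nil, not_false_eq_true, and_true] at h1
      grind
  · rcases Nat.lt_or_ge (i + M) (j + 3) with h' | h'
    · obtain hh | hh : j + 1 = i + M ∨ j + 2 = i + M := by omega
      · right; left
        rw [hh, P.per]
      · have h1 := hA j
        have n0 := P.ne j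
        have n1 := P.ne (j+1)
        have n2 := P.ne i
        have p0 := P.per i
        have p1 := P.per (i+1)
        rw [show i + 1 + M = j + 3 by omega] at p1
        rw [← hh] at p0
        rw [show j + 1 + 1 = j + 2 by omega] at n1
        simp only [List.nodup_cons, List.mem_cons, List.not_mem_nil, or_false, not_or,
          List.nodup_nil, not_false_eq_true, and_true] at h1
        grind
    · have h1 := P.T1 i j h h'
      have n0 := P.ne i
      have n1 := P.ne j
      simp only [List.nodup_cons, List.mem_cons, List.not_mem_nil, or_false, not_or,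
        List.nodup_nil, not_false_eq_true, and_true] at h1
      grind

/-- there are only three values -/
theorem three_values {M : ℕ} {c : ℕ → V} (P : Pat M c) (hM : 7 ≤ M) (hodd : Odd M)
    (hA : ∀ i, ¬ [c i, c (i+1), c (i+2), c (i+3)].Nodup) :
    ∃ A B C : V, [A, B, C].Nodup ∧ ∀ i, c i = A ∨ c i = B ∨ c i = C := by
  obtain ⟨r, hr⟩ := exists_rainbow P hodd
  have hMpos : 0 < M := by omega
  have perk : ∀ k i, c (i + k * M) = c i := by
    intro k
    induction k with
    | zero => intro i; simp
    | succ k ih =>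
      intro i
      rw [show i + (k+1) * M = (i + k * M) + M by ring, P.per, ih]
  -- reduce positions to the window [r, r+M)
  have red : ∀ i, ∃ j, r ≤ j ∧ j < r + M ∧ c i = c j ∧ c (i+1) = c (j+1) := by
    intro i
    -- i + k M ≥ r for k = r
    have h1 : r ≤ i + r * M := by nlinarith
    obtain ⟨d, hd⟩ := Nat.exists_eq_add_of_le h1
    refine ⟨r + d % M, by omega, by have := Nat.mod_lt d hMpos; omega, ?_, ?_⟩
    · rw [← perk r i, hd, ← perk (d / M) (r + d % M)]
      congr 1
      have := Nat.mod_add_div d M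
      nlinarith
    · rw [← perk r (i+1), ← perk (d / M) (r + d % M + 1)]
      congr 1
      have := Nat.mod_add_div d M
      nlinarith
  have n0 := P.ne r
  have n1 := P.ne (r+1)
  rw [show r + 1 + 1 = r + 2 by omega] at n1
  obtain ⟨k, -, hk1, hk2⟩ := exists_edge_avoid P hodd (c (r+1)) r
  obtain ⟨k', hk'1, hk'2, e1, e2⟩ := red k
  rw [e1] at hk1
  rw [e2] at hk2
  -- the edge at k' is {c r, c (r+2)}
  have m1 := edges_meet P hM hA r k' hk'1 hk'2
  have m2 : c (r+1) = c k' ∨ c (r+1) = c (k'+1) ∨ c (r+2) = c k' ∨ c (r+2) = c (k'+1) := by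
    rcases Nat.eq_or_lt_of_le hk'1 with h | h
    · subst h
      exact absurd rfl hk2
    · have := edges_meet P hM hA (r+1) k' (by omega) (by omega)
      rw [show r + 1 + 1 = r + 2 by omega] at this
      exact this
  refine ⟨c r, c (r+1), c (r+2), ?_, ?_⟩
  · simp only [List.nodup_cons, List.mem_cons, List.not_mem_nil, or_false, not_or,
      List.nodup_nil, not_false_eq_true, and_true]
    exact ⟨⟨n0, hr⟩, n1⟩
  · intro i
    obtain ⟨j, hj1, hj2, e3, e4⟩ := red i
    rw [e3]
    have q1 := edges_meet P hM hA r j hj1 hj2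
    have q2 : c (r+1) = c j ∨ c (r+1) = c (j+1) ∨ c (r+2) = c j ∨ c (r+2) = c (j+1) := by
      rcases Nat.eq_or_lt_of_le hj1 with h | h
      · subst h
        exact Or.inr (Or.inl rfl)
      · have := edges_meet P hM hA (r+1) j (by omega) (by omega)
        rw [show r + 1 + 1 = r + 2 by omega] at this
        exact this
    have q3 : c k' = c j ∨ c k' = c (j+1) ∨ c (k'+1) = c j ∨ c (k'+1) = c (j+1) := by
      rcases le_total k' j with h | h
      · exact edges_meet P hM hA k' j h (by omega)
      · rcases edges_meet P hM hA j k' h (by omega) with h' | h' | h' | h'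
        · exact Or.inl h'.symm
        · exact Or.inr (Or.inr (Or.inl h'.symm))
        · exact Or.inr (Or.inl h'.symm)
        · exact Or.inr (Or.inr (Or.inr h'.symm))
    have n2 := P.ne j
    have n3 := P.ne k'
    clear red perk hA P
    generalize c r = A at *
    generalize c (r+1) = B at *
    generalize c (r+2) = C at *
    generalize c j = X at *
    generalize c (j+1) = Y at *
    generalize c k' = Z at *
    generalize c (k'+1) = W at *
    grind

end Pool.Agent.H171R2.P6
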