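import Mathlib
import Pool.Agent.H171R2.P6Data

/-!
# Excluded class patterns in a sequence
-/

set_option autoImplicit false
set_option linter.unusedTactic false
set_option linter.unusedSimpArgs false
set_option linter.style.longLine false

namespace Pool.Agent.H171R2.P6

open SimpleGraph

variable {V : Type} {S : Setup V} {M : ℕ} {a : ℕ → V}

/-- a periodic sequence with consecutive terms at distance at least three and all other pairs at
distance at most two -/
structure Seq (S : Setup V) (M : ℕ) (a : ℕ → V) : Prop where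
  per : ∀ i, a (i + M) = a i
  far : ∀ i, Far S (a i) (a (i + 1))
  near : ∀ i j, i + 2 ≤ j → j + 2 ≤ i + M → Near S (a i) (a j)

theorem getD_inj {l : List V} (hl : l.Nodup) (d : V) {x y : ℕ} (hx : x < l.length)
    (hy : y < l.length) : l.getD x d = l.getD y d ↔ x = y := by
  rw [List.getD_eq_getElem _ _ hx, List.getD_eq_getElem _ _ hy]
  exact hl.getElem_inj_iff

theorem use (h : Seq S M a) (C : Cert) (hc : C.check = true) (m : ℕ) (F mids : List (ℕ × ℕ))
    (cls : List ℕ) (e : C.m = m ∧ C.F = F ∧ C.mids = mids ∧ C.cls = cls) (pos : List ℕ)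
    (hlt : ∀ p ∈ F ++ mids, p.1 < m ∧ p.2 < m)
    (hF : ∀ p ∈ F, pos.getD p.1 0 + 1 = pos.getD p.2 0 ∨ pos.getD p.2 0 + 1 = pos.getD p.1 0 ∨
      pos.getD p.2 0 + 1 = pos.getD p.1 0 + M)
    (hN : ∀ p ∈ mids, (pos.getD p.1 0 + 2 ≤ pos.getD p.2 0 ∧
      pos.getD p.2 0 + 2 ≤ pos.getD p.1 0 + M) ∨ (pos.getD p.2 0 + 2 ≤ pos.getD p.1 0 ∧
      pos.getD p.1 0 + 2 ≤ pos.getD p.2 0 + M))
    (vals : List V) (K : ℕ) (hK : vals.length = K) (hnd : vals.Nodup)
    (hcl : ∀ i, i < m → cls.getD i 0 < K)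
    (hval : ∀ i, i < m → S.dom (a (pos.getD i 0)) = vals.getD (cls.getD i 0) (a 0)) : False := by
  obtain ⟨rfl, rfl, rfl, rfl⟩ := e
  subst hK
  refine C.sound' S hc hlt (fun i => a (pos.getD i 0)) ?_ ?_ ?_
  · intro p hp
    rcases hF p hp with h1 | h1 | h1
    · change Far S (a (pos.getD p.1 0)) (a (pos.getD p.2 0))
      rw [← h1]
      exact h.far _
    · change Far S (a (pos.getD p.1 0)) (a (pos.getD p.2 0))
      rw [← h1]
      exact (h.far _).symm
    · change Far S (a (pos.getD p.1 0)) (a (pos.getD p.2 0))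
      have := h.far (pos.getD p.2 0)
      rw [h1, h.per] at this
      exact this.symm
  · intro p hp
    rcases hN p hp with h1 | h1
    · exact h.near _ _ h1.1 h1.2
    · exact (h.near _ _ h1.1 h1.2).symm
  · intro i j hi hj
    change S.dom (a (pos.getD i 0)) = S.dom (a (pos.getD j 0)) ↔ _
    rw [hval i hi, hval j hj]
    exact getD_inj hnd _ (hcl i hi) (hcl j hj)

theorem Seq.ne (h : Seq S M a) (i : ℕ) : S.dom (a i) ≠ S.dom (a (i + 1)) := (h.far i).dom_ne

theorem pT1 (h : Seq S M a) {i j : ℕ} (h1 : i + 3 ≤ j) (h2 : j + 3 ≤ i + M) {A B C D : V}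
    (hd : [A, B, C, D].Nodup)
    (c0 : S.dom (a (i)) = A)
    (c1 : S.dom (a (i+1)) = B)
    (c2 : S.dom (a (j)) = C)
    (c3 : S.dom (a (j+1)) = D) : False := by
  refine use h cT1 cT1_check 4 [(0, 1), (2, 3)]
    [(0, 2), (0, 3), (1, 2), (1, 3)]
    [0, 1, 2, 3] ⟨rfl, rfl, rfl, rfl⟩
    [i, i+1, j, j+1] (by decide) ?_ ?_
    [A, B, C, D] 4 rfl hd (by decide) ?_
  · simp only [List.forall_mem_cons, List.not_mem_nil, List.getD_cons_zero, List.getD_cons_succ, IsEmpty.forall_iff, implies_true, and_true, true_or, or_true, true_and]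
    try omega
  · simp only [List.forall_mem_cons, List.not_mem_nil, List.getD_cons_zero, List.getD_cons_succ, IsEmpty.forall_iff, implies_true, and_true, true_or, or_true, true_and]
    try omega
  · intro x hx
    interval_cases x <;> simp only [List.getD_cons_zero, List.getD_cons_succ] <;> assumption

theorem pT2 (h : Seq S M a) {i j : ℕ} (h1 : i + 5 ≤ j) (h2 : j + 3 ≤ i + M) {A B C D : V}
    (hd : [A, B, C, D].Nodup)
    (c0 : S.dom (a (i)) = A)
    (c1 : S.dom (a (i+1)) = B)
    (c2 : S.dom (a (i+2)) = C)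
    (c3 : S.dom (a (i+3)) = D)
    (c4 : S.dom (a (j)) = B)
    (c5 : S.dom (a (j+1)) = C) : False := by
  refine use h cT2 cT2_check 6 [(0, 1), (1, 2), (2, 3), (4, 5)]
    [(0, 2), (0, 3), (0, 4), (0, 5), (1, 3), (1, 5), (2, 4), (3, 4), (3, 5)]
    [0, 1, 2, 3, 1, 2] ⟨rfl, rfl, rfl, rfl⟩
    [i, i+1, i+2, i+3, j, j+1] (by decide) ?_ ?_
    [A, B, C, D] 4 rfl hd (by decide) ?_
  · simp only [List.forall_mem_cons, List.not_mem_nil, List.getD_cons_zero, List.getD_cons_succ, IsEmpty.forall_iff, implies_true, and_true, true_or, or_true, true_and]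
    try omega
  · simp only [List.forall_mem_cons, List.not_mem_nil, List.getD_cons_zero, List.getD_cons_succ, IsEmpty.forall_iff, implies_true, and_true, true_or, or_true, true_and]
    try omega
  · intro x hx
    interval_cases x <;> simp only [List.getD_cons_zero, List.getD_cons_succ] <;> assumption

theorem pT2r (h : Seq S M a) {i j : ℕ} (h1 : i + 5 ≤ j) (h2 : j + 3 ≤ i + M) {A B C D : V}
    (hd : [A, B, C, D].Nodup)
    (c0 : S.dom (a (i+3)) = A)
    (c1 : S.dom (a (i+2)) = B)
    (c2 : S.dom (a (i+1)) = C)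
    (c3 : S.dom (a (i)) = D)
    (c4 : S.dom (a (j)) = B)
    (c5 : S.dom (a (j+1)) = C) : False := by
  refine use h cT2 cT2_check 6 [(0, 1), (1, 2), (2, 3), (4, 5)]
    [(0, 2), (0, 3), (0, 4), (0, 5), (1, 3), (1, 5), (2, 4), (3, 4), (3, 5)]
    [0, 1, 2, 3, 1, 2] ⟨rfl, rfl, rfl, rfl⟩
    [i+3, i+2, i+1, i, j, j+1] (by decide) ?_ ?_
    [A, B, C, D] 4 rfl hd (by decide) ?_
  · simp only [List.forall_mem_cons, List.not_mem_nil, List.getD_cons_zero, List.getD_cons_succ, IsEmpty.forall_iff, implies_true, and_true, true_or, or_true, true_and]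
    try omega
  · simp only [List.forall_mem_cons, List.not_mem_nil, List.getD_cons_zero, List.getD_cons_succ, IsEmpty.forall_iff, implies_true, and_true, true_or, or_true, true_and]
    try omega
  · intro x hx
    interval_cases x <;> simp only [List.getD_cons_zero, List.getD_cons_succ] <;> assumption

theorem pT3 (h : Seq S M a) {i : ℕ} (hM : 7 ≤ M) {A B C D : V}
    (hd : [A, B, C, D].Nodup)
    (c0 : S.dom (a (i)) = A)
    (c1 : S.dom (a (i+1)) = B)
    (c2 : S.dom (a (i+2)) = C)
    (c3 : S.dom (a (i+3)) = D)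
    (c4 : S.dom (a (i+4)) = A)
    (c5 : S.dom (a (i+5)) = B) : False := by
  refine use h cT3 cT3_check 6 [(0, 1), (1, 2), (2, 3), (3, 4), (4, 5)]
    [(0, 2), (0, 3), (0, 5), (1, 3), (1, 4), (2, 4), (2, 5), (3, 5)]
    [0, 1, 2, 3, 0, 1] ⟨rfl, rfl, rfl, rfl⟩
    [i, i+1, i+2, i+3, i+4, i+5] (by decide) ?_ ?_
    [A, B, C, D] 4 rfl hd (by decide) ?_
  · simp only [List.forall_mem_cons, List.not_mem_nil, List.getD_cons_zero, List.getD_cons_succ, IsEmpty.forall_iff, implies_true, and_true, true_or, or_true, true_and]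
    try omega
  · simp only [List.forall_mem_cons, List.not_mem_nil, List.getD_cons_zero, List.getD_cons_succ, IsEmpty.forall_iff, implies_true, and_true, true_or, or_true, true_and]
    try omega
  · intro x hx
    interval_cases x <;> simp only [List.getD_cons_zero, List.getD_cons_succ] <;> assumption

theorem pT4 (h : Seq S M a) {i : ℕ} (hM : 7 ≤ M) {A B C D : V}
    (hd : [A, B, C, D].Nodup)
    (c0 : S.dom (a (i)) = A)
    (c1 : S.dom (a (i+1)) = B)
    (c2 : S.dom (a (i+2)) = C)
    (c3 : S.dom (a (i+3)) = D)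
    (c4 : S.dom (a (i+4)) = B)
    (c5 : S.dom (a (i+5)) = A) : False := by
  refine use h cT4 cT4_check 6 [(0, 1), (1, 2), (2, 3), (3, 4), (4, 5)]
    [(0, 2), (0, 3), (0, 4), (1, 3), (1, 5), (2, 4), (2, 5), (3, 5)]
    [0, 1, 2, 3, 1, 0] ⟨rfl, rfl, rfl, rfl⟩
    [i, i+1, i+2, i+3, i+4, i+5] (by decide) ?_ ?_
    [A, B, C, D] 4 rfl hd (by decide) ?_
  · simp only [List.forall_mem_cons, List.not_mem_nil, List.getD_cons_zero, List.getD_cons_succ, IsEmpty.forall_iff, implies_true, and_true, true_or, or_true, true_and]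
    try omega
  · simp only [List.forall_mem_cons, List.not_mem_nil, List.getD_cons_zero, List.getD_cons_succ, IsEmpty.forall_iff, implies_true, and_true, true_or, or_true, true_and]
    try omega
  · intro x hx
    interval_cases x <;> simp only [List.getD_cons_zero, List.getD_cons_succ] <;> assumption

theorem pT5 (h : Seq S M a) {i : ℕ} (hM : 7 ≤ M) {A B C D : V}
    (hd : [A, B, C, D].Nodup)
    (c0 : S.dom (a (i)) = A)
    (c1 : S.dom (a (i+1)) = B)
    (c2 : S.dom (a (i+2)) = C)
    (c3 : S.dom (a (i+3)) = A)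
    (c4 : S.dom (a (i+4)) = B)
    (c5 : S.dom (a (i+5)) = D) : False := by
  refine use h cT5 cT5_check 6 [(0, 1), (1, 2), (2, 3), (3, 4), (4, 5)]
    [(0, 2), (0, 4), (0, 5), (1, 3), (1, 5), (2, 4), (2, 5), (3, 5)]
    [0, 1, 2, 0, 1, 3] ⟨rfl, rfl, rfl, rfl⟩
    [i, i+1, i+2, i+3, i+4, i+5] (by decide) ?_ ?_
    [A, B, C, D] 4 rfl hd (by decide) ?_
  · simp only [List.forall_mem_cons, List.not_mem_nil, List.getD_cons_zero, List.getD_cons_succ, IsEmpty.forall_iff, implies_true, and_true, true_or, or_true, true_and]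
    try omega
  · simp only [List.forall_mem_cons, List.not_mem_nil, List.getD_cons_zero, List.getD_cons_succ, IsEmpty.forall_iff, implies_true, and_true, true_or, or_true, true_and]
    try omega
  · intro x hx
    interval_cases x <;> simp only [List.getD_cons_zero, List.getD_cons_succ] <;> assumption

theorem pT5r (h : Seq S M a) {i : ℕ} (hM : 7 ≤ M) {A B C D : V}
    (hd : [A, B, C, D].Nodup)
    (c0 : S.dom (a (i+5)) = A)
    (c1 : S.dom (a (i+4)) = B)
    (c2 : S.dom (a (i+3)) = C)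
    (c3 : S.dom (a (i+2)) = A)
    (c4 : S.dom (a (i+1)) = B)
    (c5 : S.dom (a (i)) = D) : False := by
  refine use h cT5 cT5_check 6 [(0, 1), (1, 2), (2, 3), (3, 4), (4, 5)]
    [(0, 2), (0, 4), (0, 5), (1, 3), (1, 5), (2, 4), (2, 5), (3, 5)]
    [0, 1, 2, 0, 1, 3] ⟨rfl, rfl, rfl, rfl⟩
    [i+5, i+4, i+3, i+2, i+1, i] (by decide) ?_ ?_
    [A, B, C, D] 4 rfl hd (by decide) ?_
  · simp only [List.forall_mem_cons, List.not_mem_nil, List.getD_cons_zero, List.getD_cons_succ, IsEmpty.forall_iff, implies_true, and_true, true_or, or_true, true_and]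
    try omega
  · simp only [List.forall_mem_cons, List.not_mem_nil, List.getD_cons_zero, List.getD_cons_succ, IsEmpty.forall_iff, implies_true, and_true, true_or, or_true, true_and]
    try omega
  · intro x hx
    interval_cases x <;> simp only [List.getD_cons_zero, List.getD_cons_succ] <;> assumption

theorem pT6 (h : Seq S M a) {i : ℕ} (hM : 7 ≤ M) {A B C : V}
    (hd : [A, B, C].Nodup)
    (c0 : S.dom (a (i)) = A)
    (c1 : S.dom (a (i+1)) = B)
    (c2 : S.dom (a (i+2)) = C)
    (c3 : S.dom (a (i+3)) = A)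
    (c4 : S.dom (a (i+4)) = C)
    (c5 : S.dom (a (i+5)) = B) : False := by
  refine use h cT6 cT6_check 6 [(0, 1), (1, 2), (2, 3), (3, 4), (4, 5)]
    [(0, 2), (0, 4), (0, 5), (1, 3), (1, 4), (2, 5), (3, 5)]
    [0, 1, 2, 0, 2, 1] ⟨rfl, rfl, rfl, rfl⟩
    [i, i+1, i+2, i+3, i+4, i+5] (by decide) ?_ ?_
    [A, B, C] 3 rfl hd (by decide) ?_
  · simp only [List.forall_mem_cons, List.not_mem_nil, List.getD_cons_zero, List.getD_cons_succ, IsEmpty.forall_iff, implies_true, and_true, true_or, or_true, true_and]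
    try omega
  · simp only [List.forall_mem_cons, List.not_mem_nil, List.getD_cons_zero, List.getD_cons_succ, IsEmpty.forall_iff, implies_true, and_true, true_or, or_true, true_and]
    try omega
  · intro x hx
    interval_cases x <;> simp only [List.getD_cons_zero, List.getD_cons_succ] <;> assumption

theorem pT6r (h : Seq S M a) {i : ℕ} (hM : 7 ≤ M) {A B C : V}
    (hd : [A, B, C].Nodup)
    (c0 : S.dom (a (i+5)) = A)
    (c1 : S.dom (a (i+4)) = B)
    (c2 : S.dom (a (i+3)) = C)
    (c3 : S.dom (a (i+2)) = A)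
    (c4 : S.dom (a (i+1)) = C)
    (c5 : S.dom (a (i)) = B) : False := by
  refine use h cT6 cT6_check 6 [(0, 1), (1, 2), (2, 3), (3, 4), (4, 5)]
    [(0, 2), (0, 4), (0, 5), (1, 3), (1, 4), (2, 5), (3, 5)]
    [0, 1, 2, 0, 2, 1] ⟨rfl, rfl, rfl, rfl⟩
    [i+5, i+4, i+3, i+2, i+1, i] (by decide) ?_ ?_
    [A, B, C] 3 rfl hd (by decide) ?_
  · simp only [List.forall_mem_cons, List.not_mem_nil, List.getD_cons_zero, List.getD_cons_succ, IsEmpty.forall_iff, implies_true, and_true, true_or, or_true, true_and]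
    try omega
  · simp only [List.forall_mem_cons, List.not_mem_nil, List.getD_cons_zero, List.getD_cons_succ, IsEmpty.forall_iff, implies_true, and_true, true_or, or_true, true_and]
    try omega
  · intro x hx
    interval_cases x <;> simp only [List.getD_cons_zero, List.getD_cons_succ] <;> assumption

theorem pG3 (h : Seq S M a) {i : ℕ} (hM : 7 ≤ M) {A B C : V}
    (hd : [A, B, C].Nodup)
    (c0 : S.dom (a (i)) = A)
    (c1 : S.dom (a (i+1)) = B)
    (c2 : S.dom (a (i+2)) = C)
    (c3 : S.dom (a (i+3)) = B)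
    (c4 : S.dom (a (i+4)) = C)
    (c5 : S.dom (a (i+5)) = A) : False := by
  refine use h cG3 cG3_check 6 [(0, 1), (1, 2), (2, 3), (3, 4), (4, 5)]
    [(0, 2), (0, 3), (0, 4), (1, 4), (1, 5), (2, 5), (3, 5)]
    [0, 1, 2, 1, 2, 0] ⟨rfl, rfl, rfl, rfl⟩
    [i, i+1, i+2, i+3, i+4, i+5] (by decide) ?_ ?_
    [A, B, C] 3 rfl hd (by decide) ?_
  · simp only [List.forall_mem_cons, List.not_mem_nil, List.getD_cons_zero, List.getD_cons_succ, IsEmpty.forall_iff, implies_true, and_true, true_or, or_true, true_and]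
    try omega
  · simp only [List.forall_mem_cons, List.not_mem_nil, List.getD_cons_zero, List.getD_cons_succ, IsEmpty.forall_iff, implies_true, and_true, true_or, or_true, true_and]
    try omega
  · intro x hx
    interval_cases x <;> simp only [List.getD_cons_zero, List.getD_cons_succ] <;> assumption

theorem pT8 (h : Seq S M a) {i : ℕ} (hM : 8 ≤ M) {A B C : V}
    (hd : [A, B, C].Nodup)
    (c0 : S.dom (a (i)) = A)
    (c1 : S.dom (a (i+1)) = B)
    (c2 : S.dom (a (i+2)) = A)
    (c3 : S.dom (a (i+3)) = B)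
    (c4 : S.dom (a (i+4)) = C)
    (c5 : S.dom (a (i+5)) = B)
    (c6 : S.dom (a (i+6)) = C) : False := by
  refine use h cT8 cT8_check 7 [(0, 1), (1, 2), (2, 3), (3, 4), (4, 5), (5, 6)]
    [(0, 3), (0, 4), (0, 5), (0, 6), (1, 4), (1, 6), (2, 4), (2, 5), (2, 6), (3, 6)]
    [0, 1, 0, 1, 2, 1, 2] ⟨rfl, rfl, rfl, rfl⟩
    [i, i+1, i+2, i+3, i+4, i+5, i+6] (by decide) ?_ ?_
    [A, B, C] 3 rfl hd (by decide) ?_
  · simp only [List.forall_mem_cons, List.not_mem_nil, List.getD_cons_zero, List.getD_cons_succ, IsEmpty.forall_iff, implies_true, and_true, true_or, or_true, true_and]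
    try omega
  · simp only [List.forall_mem_cons, List.not_mem_nil, List.getD_cons_zero, List.getD_cons_succ, IsEmpty.forall_iff, implies_true, and_true, true_or, or_true, true_and]
    try omega
  · intro x hx
    interval_cases x <;> simp only [List.getD_cons_zero, List.getD_cons_succ] <;> assumption

theorem pT10 (h : Seq S M a) {i : ℕ} (hM : 8 ≤ M) {A B C : V}
    (hd : [A, B, C].Nodup)
    (c0 : S.dom (a (i)) = A)
    (c1 : S.dom (a (i+1)) = B)
    (c2 : S.dom (a (i+2)) = A)
    (c3 : S.dom (a (i+3)) = C)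
    (c4 : S.dom (a (i+4)) = B)
    (c5 : S.dom (a (i+5)) = A)
    (c6 : S.dom (a (i+6)) = B) : False := by
  refine use h cT10 cT10_check 7 [(0, 1), (1, 2), (2, 3), (3, 4), (4, 5), (5, 6)]
    [(0, 3), (0, 4), (0, 6), (1, 3), (1, 5), (2, 4), (2, 6), (3, 5), (3, 6)]
    [0, 1, 0, 2, 1, 0, 1] ⟨rfl, rfl, rfl, rfl⟩
    [i, i+1, i+2, i+3, i+4, i+5, i+6] (by decide) ?_ ?_
    [A, B, C] 3 rfl hd (by decide) ?_
  · simp only [List.forall_mem_cons, List.not_mem_nil, List.getD_cons_zero, List.getD_cons_succ, IsEmpty.forall_iff, implies_true, and_true, true_or, or_true, true_and]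
    try omega
  · simp only [List.forall_mem_cons, List.not_mem_nil, List.getD_cons_zero, List.getD_cons_succ, IsEmpty.forall_iff, implies_true, and_true, true_or, or_true, true_and]
    try omega
  · intro x hx
    interval_cases x <;> simp only [List.getD_cons_zero, List.getD_cons_succ] <;> assumption

theorem pQ (h : Seq S M a) {i j : ℕ} (h1 : i + 5 ≤ j) (h2 : j + 3 ≤ i + M) {A B C : V}
    (hd : [A, B, C].Nodup)
    (c0 : S.dom (a (i)) = A)
    (c1 : S.dom (a (i+1)) = B)
    (c2 : S.dom (a (i+2)) = C)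
    (c3 : S.dom (a (i+3)) = A)
    (c4 : S.dom (a (j)) = B)
    (c5 : S.dom (a (j+1)) = C) : False := by
  refine use h cQ cQ_check 6 [(0, 1), (1, 2), (2, 3), (4, 5)]
    [(0, 2), (0, 4), (0, 5), (1, 3), (1, 5), (2, 4), (3, 4), (3, 5)]
    [0, 1, 2, 0, 1, 2] ⟨rfl, rfl, rfl, rfl⟩
    [i, i+1, i+2, i+3, j, j+1] (by decide) ?_ ?_
    [A, B, C] 3 rfl hd (by decide) ?_
  · simp only [List.forall_mem_cons, List.not_mem_nil, List.getD_cons_zero, List.getD_cons_succ, IsEmpty.forall_iff, implies_true, and_true, true_or, or_true, true_and]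
    try omega
  · simp only [List.forall_mem_cons, List.not_mem_nil, List.getD_cons_zero, List.getD_cons_succ, IsEmpty.forall_iff, implies_true, and_true, true_or, or_true, true_and]
    try omega
  · intro x hx
    interval_cases x <;> simp only [List.getD_cons_zero, List.getD_cons_succ] <;> assumption

theorem pQr (h : Seq S M a) {i j : ℕ} (h1 : i + 5 ≤ j) (h2 : j + 3 ≤ i + M) {A B C : V}
    (hd : [A, B, C].Nodup)
    (c0 : S.dom (a (i+3)) = A)
    (c1 : S.dom (a (i+2)) = B)
    (c2 : S.dom (a (i+1)) = C)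
    (c3 : S.dom (a (i)) = A)
    (c4 : S.dom (a (j)) = B)
    (c5 : S.dom (a (j+1)) = C) : False := by
  refine use h cQ cQ_check 6 [(0, 1), (1, 2), (2, 3), (4, 5)]
    [(0, 2), (0, 4), (0, 5), (1, 3), (1, 5), (2, 4), (3, 4), (3, 5)]
    [0, 1, 2, 0, 1, 2] ⟨rfl, rfl, rfl, rfl⟩
    [i+3, i+2, i+1, i, j, j+1] (by decide) ?_ ?_
    [A, B, C] 3 rfl hd (by decide) ?_
  · simp only [List.forall_mem_cons, List.not_mem_nil, List.getD_cons_zero, List.getD_cons_succ, IsEmpty.forall_iff, implies_true, and_true, true_or, or_true, true_and]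
    try omega
  · simp only [List.forall_mem_cons, List.not_mem_nil, List.getD_cons_zero, List.getD_cons_succ, IsEmpty.forall_iff, implies_true, and_true, true_or, or_true, true_and]
    try omega
  · intro x hx
    interval_cases x <;> simp only [List.getD_cons_zero, List.getD_cons_succ] <;> assumption

theorem pR (h : Seq S M a) {i j : ℕ} (h1 : i + 4 ≤ j) (h2 : j + 4 ≤ i + M) {A B C : V}
    (hd : [A, B, C].Nodup)
    (c0 : S.dom (a (i)) = A)
    (c1 : S.dom (a (i+1)) = B)
    (c2 : S.dom (a (i+2)) = C)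
    (c3 : S.dom (a (j)) = A)
    (c4 : S.dom (a (j+1)) = B)
    (c5 : S.dom (a (j+2)) = C) : False := by
  refine use h cR cR_check 6 [(0, 1), (1, 2), (3, 4), (4, 5)]
    [(0, 2), (0, 4), (0, 5), (1, 3), (1, 5), (2, 3), (2, 4), (3, 5)]
    [0, 1, 2, 0, 1, 2] ⟨rfl, rfl, rfl, rfl⟩
    [i, i+1, i+2, j, j+1, j+2] (by decide) ?_ ?_
    [A, B, C] 3 rfl hd (by decide) ?_
  · simp only [List.forall_mem_cons, List.not_mem_nil, List.getD_cons_zero, List.getD_cons_succ, IsEmpty.forall_iff, implies_true, and_true, true_or, or_true, true_and]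
    try omega
  · simp only [List.forall_mem_cons, List.not_mem_nil, List.getD_cons_zero, List.getD_cons_succ, IsEmpty.forall_iff, implies_true, and_true, true_or, or_true, true_and]
    try omega
  · intro x hx
    interval_cases x <;> simp only [List.getD_cons_zero, List.getD_cons_succ] <;> assumption

theorem pS (h : Seq S M a) {i j : ℕ} (h1 : i + 5 ≤ j) (h2 : j + 4 ≤ i + M) {A B C : V}
    (hd : [A, B, C].Nodup)
    (c0 : S.dom (a (i)) = A)
    (c1 : S.dom (a (i+1)) = B)
    (c2 : S.dom (a (i+2)) = C)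
    (c3 : S.dom (a (i+3)) = A)
    (c4 : S.dom (a (j)) = C)
    (c5 : S.dom (a (j+1)) = A)
    (c6 : S.dom (a (j+2)) = B) : False := by
  refine use h cS cS_check 7 [(0, 1), (1, 2), (2, 3), (4, 5), (5, 6)]
    [(0, 2), (0, 4), (0, 6), (1, 3), (1, 4), (1, 5), (2, 5), (2, 6), (3, 4), (3, 6), (4, 6)]
    [0, 1, 2, 0, 2, 0, 1] ⟨rfl, rfl, rfl, rfl⟩
    [i, i+1, i+2, i+3, j, j+1, j+2] (by decide) ?_ ?_
    [A, B, C] 3 rfl hd (by decide) ?_
  · simp only [List.forall_mem_cons, List.not_mem_nil, List.getD_cons_zero, List.getD_cons_succ, IsEmpty.forall_iff, implies_true, and_true, true_or, or_true, true_and]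
    try omega
  · simp only [List.forall_mem_cons, List.not_mem_nil, List.getD_cons_zero, List.getD_cons_succ, IsEmpty.forall_iff, implies_true, and_true, true_or, or_true, true_and]
    try omega
  · intro x hx
    interval_cases x <;> simp only [List.getD_cons_zero, List.getD_cons_succ] <;> assumption

theorem pC7a (h : Seq S M a) {i : ℕ} (hM : M = 7) {A B C : V}
    (hd : [A, B, C].Nodup)
    (c0 : S.dom (a (i)) = A)
    (c1 : S.dom (a (i+1)) = B)
    (c2 : S.dom (a (i+2)) = A)
    (c3 : S.dom (a (i+3)) = B)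
    (c4 : S.dom (a (i+4)) = A)
    (c5 : S.dom (a (i+5)) = B)
    (c6 : S.dom (a (i+6)) = C) : False := by
  refine use h cC7a cC7a_check 7 [(0, 1), (1, 2), (2, 3), (3, 4), (4, 5), (5, 6), (0, 6)]
    [(0, 3), (0, 5), (1, 4), (1, 6), (2, 5), (2, 6), (3, 6), (4, 6)]
    [0, 1, 0, 1, 0, 1, 2] ⟨rfl, rfl, rfl, rfl⟩
    [i, i+1, i+2, i+3, i+4, i+5, i+6] (by decide) ?_ ?_
    [A, B, C] 3 rfl hd (by decide) ?_
  · simp only [List.forall_mem_cons, List.not_mem_nil, List.getD_cons_zero, List.getD_cons_succ, IsEmpty.forall_iff, implies_true, and_true, true_or, or_true, true_and]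
    try omega
  · simp only [List.forall_mem_cons, List.not_mem_nil, List.getD_cons_zero, List.getD_cons_succ, IsEmpty.forall_iff, implies_true, and_true, true_or, or_true, true_and]
    try omega
  · intro x hx
    interval_cases x <;> simp only [List.getD_cons_zero, List.getD_cons_succ] <;> assumption

theorem pC5a (h : Seq S M a) {i : ℕ} (hM : M = 5) {A B C : V}
    (hd : [A, B, C].Nodup)
    (c0 : S.dom (a (i)) = A)
    (c1 : S.dom (a (i+1)) = B)
    (c2 : S.dom (a (i+2)) = A)
    (c3 : S.dom (a (i+3)) = B)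
    (c4 : S.dom (a (i+4)) = C) : False := by
  refine use h cC5a cC5a_check 5 [(0, 1), (1, 2), (2, 3), (3, 4), (0, 4)]
    [(0, 3), (1, 4), (2, 4)]
    [0, 1, 0, 1, 2] ⟨rfl, rfl, rfl, rfl⟩
    [i, i+1, i+2, i+3, i+4] (by decide) ?_ ?_
    [A, B, C] 3 rfl hd (by decide) ?_
  · simp only [List.forall_mem_cons, List.not_mem_nil, List.getD_cons_zero, List.getD_cons_succ, IsEmpty.forall_iff, implies_true, and_true, true_or, or_true, true_and]
    try omega
  · simp only [List.forall_mem_cons, List.not_mem_nil, List.getD_cons_zero, List.getD_cons_succ, IsEmpty.forall_iff, implies_true, and_true, true_or, or_true, true_and]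
    try omega
  · intro x hx
    interval_cases x <;> simp only [List.getD_cons_zero, List.getD_cons_succ] <;> assumption

theorem pC5b (h : Seq S M a) {i : ℕ} (hM : M = 5) {A B C D : V}
    (hd : [A, B, C, D].Nodup)
    (c0 : S.dom (a (i)) = A)
    (c1 : S.dom (a (i+1)) = B)
    (c2 : S.dom (a (i+2)) = A)
    (c3 : S.dom (a (i+3)) = C)
    (c4 : S.dom (a (i+4)) = D) : False := by
  refine use h cC5b cC5b_check 5 [(0, 1), (1, 2), (2, 3), (3, 4), (0, 4)]
    [(0, 3), (1, 3), (1, 4), (2, 4)]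
    [0, 1, 0, 2, 3] ⟨rfl, rfl, rfl, rfl⟩
    [i, i+1, i+2, i+3, i+4] (by decide) ?_ ?_
    [A, B, C, D] 4 rfl hd (by decide) ?_
  · simp only [List.forall_mem_cons, List.not_mem_nil, List.getD_cons_zero, List.getD_cons_succ, IsEmpty.forall_iff, implies_true, and_true, true_or, or_true, true_and]
    try omega
  · simp only [List.forall_mem_cons, List.not_mem_nil, List.getD_cons_zero, List.getD_cons_succ, IsEmpty.forall_iff, implies_true, and_true, true_or, or_true, true_and]
    try omega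
  · intro x hx
    interval_cases x <;> simp only [List.getD_cons_zero, List.getD_cons_succ] <;> assumption

theorem pC5c (h : Seq S M a) {i : ℕ} (hM : M = 5) {A B C D E : V}
    (hd : [A, B, C, D, E].Nodup)
    (c0 : S.dom (a (i)) = A)
    (c1 : S.dom (a (i+1)) = B)
    (c2 : S.dom (a (i+2)) = C)
    (c3 : S.dom (a (i+3)) = D)
    (c4 : S.dom (a (i+4)) = E) : False := by
  refine use h cC5c cC5c_check 5 [(0, 1), (1, 2), (2, 3), (3, 4), (0, 4)]
    [(0, 2), (0, 3), (1, 3), (1, 4), (2, 4)]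
    [0, 1, 2, 3, 4] ⟨rfl, rfl, rfl, rfl⟩
    [i, i+1, i+2, i+3, i+4] (by decide) ?_ ?_
    [A, B, C, D, E] 5 rfl hd (by decide) ?_
  · simp only [List.forall_mem_cons, List.not_mem_nil, List.getD_cons_zero, List.getD_cons_succ, IsEmpty.forall_iff, implies_true, and_true, true_or, or_true, true_and]
    try omega
  · simp only [List.forall_mem_cons, List.not_mem_nil, List.getD_cons_zero, List.getD_cons_succ, IsEmpty.forall_iff, implies_true, and_true, true_or, or_true, true_and]
    try omega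
  · intro x hx
    interval_cases x <;> simp only [List.getD_cons_zero, List.getD_cons_succ] <;> assumption

end Pool.Agent.H171R2.P6
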