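import Mathlib

/-!
# The combinatorial part for three classes
-/

set_option autoImplicit false

namespace Pool.Agent.H171R2.P6

def fT6 (a b c d e f : Fin 3) : Bool := a != b && a != c && b != c && d == a && e == c && f == b
def fT6r (a b c d e f : Fin 3) : Bool := a != b && a != c && b != c && d == b && e == a && f == c
def fG3 (a b c d e f : Fin 3) : Bool := a != b && a != c && b != c && d == b && e == c && f == a
def fT8 (a b c d e f g : Fin 3) : Bool :=
  a != b && c == a && d == b && e != a && e != b && f == b && g == e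
def fT10 (a b c d e f g : Fin 3) : Bool :=
  a != b && c == a && d != a && d != b && e == b && f == a && g == b
def fR (a b c e f g : Fin 3) : Bool := a != b && a != c && b != c && e == a && f == b && g == c
def f6 (a b c d e f : Fin 3) : Bool := a != b && a != c && b != c && d == a && e == b && f == c
def f5 (a b c d e : Fin 3) : Bool := a != b && a != c && b != c && d == a && e == b
def fC7 (a b c d e f g : Fin 3) : Bool :=
  a != b && c == a && d == b && e == a && f == b && g != a && g != b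

def mu (y0 y1 y2 y3 y4 y5 : Fin 3) : Bool :=
  (y3 == y2 + 1) ^^ (((y1 != y3) && (y2 != y4)) || ((y1 != y3) && (y3 != y5)) ||
    ((y0 != y2) && (y2 != y4)))

theorem mu_altB : ∀ a b c d e f g : Fin 3,
    (a == b || b == c || c == d || d == e || e == f || f == g || fT6 a b c d e f ||
      fT6 b c d e f g || fT6r a b c d e f || fT6r b c d e f g || fT8 a b c d e f g ||
      fR a b c e f g || f5 a b c d e || f5 b c d e f || f5 c d e f g ||
      (mu b c d e f g == !(mu a b c d e f))) = true := by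
  decide +kernel

theorem mu_alt (a b c d e f g : Fin 3) (h1 : a ≠ b) (h2 : b ≠ c) (h3 : c ≠ d) (h4 : d ≠ e)
    (h5 : e ≠ f) (h6 : f ≠ g)
    (k1 : fT6 a b c d e f = false) (k2 : fT6 b c d e f g = false) (k3 : fT6r a b c d e f = false)
    (k4 : fT6r b c d e f g = false) (k5 : fT8 a b c d e f g = false)
    (k6 : fR a b c e f g = false) (k7 : f5 a b c d e = false) (k8 : f5 b c d e f = false)
    (k9 : f5 c d e f g = false) :
    mu b c d e f g = !(mu a b c d e f) := by
  have h := mu_altB a b c d e f g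
  rw [k1, k2, k3, k4, k5, k6, k7, k8, k9, beq_false_of_ne h1, beq_false_of_ne h2,
    beq_false_of_ne h3, beq_false_of_ne h4, beq_false_of_ne h5, beq_false_of_ne h6] at h
  simpa using h

def any7 (F : Fin 3 → Fin 3 → Fin 3 → Fin 3 → Fin 3 → Fin 3 → Bool)
    (a b c d e f g : Fin 3) : Bool :=
  F a b c d e f || F b c d e f g || F c d e f g a || F d e f g a b || F e f g a b c ||
    F f g a b c d || F g a b c d e

def any7' (F : Fin 3 → Fin 3 → Fin 3 → Fin 3 → Fin 3 → Fin 3 → Fin 3 → Bool)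
    (a b c d e f g : Fin 3) : Bool :=
  F a b c d e f g || F b c d e f g a || F c d e f g a b || F d e f g a b c || F e f g a b c d ||
    F f g a b c d e || F g a b c d e f

theorem sevenB : ∀ a b c d e f g : Fin 3,
    (a == b || b == c || c == d || d == e || e == f || f == g || g == a ||
      any7 fT6 a b c d e f g || any7 fT6r a b c d e f g || any7 fG3 a b c d e f g ||
      any7' fC7 a b c d e f g) = true := by
  decide +kernel

structure Pat3 (M : ℕ) (x : ℕ → Fin 3) : Prop where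
  per : ∀ i, x (i + M) = x i
  ne : ∀ i, x i ≠ x (i + 1)
  T6 : ∀ i, fT6 (x i) (x (i+1)) (x (i+2)) (x (i+3)) (x (i+4)) (x (i+5)) = false
  T6r : ∀ i, fT6r (x i) (x (i+1)) (x (i+2)) (x (i+3)) (x (i+4)) (x (i+5)) = false
  T8 : ∀ i, fT8 (x i) (x (i+1)) (x (i+2)) (x (i+3)) (x (i+4)) (x (i+5)) (x (i+6)) = false
  T10 : ∀ i, fT10 (x i) (x (i+1)) (x (i+2)) (x (i+3)) (x (i+4)) (x (i+5)) (x (i+6)) = false
  R : ∀ i, fR (x i) (x (i+1)) (x (i+2)) (x (i+4)) (x (i+5)) (x (i+6)) = false
  Q : ∀ i j, i + 5 ≤ j → j + 3 ≤ i + M →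
    f6 (x i) (x (i+1)) (x (i+2)) (x (i+3)) (x j) (x (j+1)) = false
  Qr : ∀ i j, i + 5 ≤ j → j + 3 ≤ i + M →
    f6 (x (i+3)) (x (i+2)) (x (i+1)) (x i) (x j) (x (j+1)) = false
  S : ∀ i j, i + 5 ≤ j → j + 4 ≤ i + M →
    (f5 (x i) (x (i+1)) (x (i+2)) (x (i+3)) (x (j+2)) && x j == x (i+2) && x (j+1) == x i) = false

theorem no6_nineB : ∀ a b c d e f X Y Z : Fin 3,
    (f == X || X == Y || Y == Z || f6 a b c d X Y || f6 d c b a X Y || f6 b c d e X Y ||
      f6 e d c b X Y || f6 b c d e Y Z || f6 e d c b Y Z || f6 c d e f Y Z || f6 f e d c Y Z ||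
      (f5 a b c d Y && f == c && X == a) || !(f6 a b c d e f)) = true := by
  decide +kernel

/-- the word `ABCABCxyz`-case for nine vertices -/
theorem no6_nine (a b c d e f X Y Z : Fin 3) (h1 : f ≠ X) (h2 : X ≠ Y) (h3 : Y ≠ Z)
    (k1 : f6 a b c d X Y = false) (k2 : f6 d c b a X Y = false)
    (k3 : f6 b c d e X Y = false) (k4 : f6 e d c b X Y = false)
    (k5 : f6 b c d e Y Z = false) (k6 : f6 e d c b Y Z = false)
    (k7 : f6 c d e f Y Z = false) (k8 : f6 f e d c Y Z = false)
    (k9 : (f5 a b c d Y && f == c && X == a) = false) :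
    f6 a b c d e f = false := by
  have h := no6_nineB a b c d e f X Y Z
  rw [k1, k2, k3, k4, k5, k6, k7, k8, k9, beq_false_of_ne h1, beq_false_of_ne h2,
    beq_false_of_ne h3] at h
  simpa using h

theorem no6_bigB : ∀ a b c d e f X Y : Fin 3,
    (X == Y || f6 a b c d X Y || f6 d c b a X Y || f6 b c d e X Y || f6 e d c b X Y ||
    f6 c d e f X Y || f6 f e d c X Y || !(f6 a b c d e f)) = true := by
  decide +kernel

theorem no6_big (a b c d e f X Y : Fin 3) (h1 : X ≠ Y)
    (k1 : f6 a b c d X Y = false) (k2 : f6 d c b a X Y = false)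
    (k3 : f6 b c d e X Y = false) (k4 : f6 e d c b X Y = false)
    (k5 : f6 c d e f X Y = false) (k6 : f6 f e d c X Y = false) :
    f6 a b c d e f = false := by
  have h := no6_bigB a b c d e f X Y
  rw [k1, k2, k3, k4, k5, k6, beq_false_of_ne h1] at h
  simpa using h

theorem no5_localB : ∀ z a b c d e y : Fin 3,
    (z == a || e == y || f6 z a b c d e || f6 a b c d e y || fT10 z a b c d e y ||
    !(f5 a b c d e)) = true := by
  decide +kernel

theorem no5_local (z a b c d e y : Fin 3) (h1 : z ≠ a) (h2 : e ≠ y)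
    (k1 : f6 z a b c d e = false) (k2 : f6 a b c d e y = false)
    (k3 : fT10 z a b c d e y = false) :
    f5 a b c d e = false := by
  have h := no5_localB z a b c d e y
  rw [k1, k2, k3, beq_false_of_ne h1, beq_false_of_ne h2] at h
  simpa using h

theorem no6 {M : ℕ} {x : ℕ → Fin 3} (P : Pat3 M x) (hM : 9 ≤ M) (hodd : Odd M) (i : ℕ) :
    f6 (x i) (x (i+1)) (x (i+2)) (x (i+3)) (x (i+4)) (x (i+5)) = false := by
  obtain ⟨t, ht⟩ := hodd
  rcases Nat.eq_or_lt_of_le hM with h9 | h9
  · subst h9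
    refine no6_nine _ _ _ _ _ _ (x (i+6)) (x (i+7)) (x (i+8)) (P.ne (i+5)) (P.ne (i+6))
      (P.ne (i+7)) (P.Q i (i+6) (by omega) (by omega)) (P.Qr i (i+6) (by omega) (by omega))
      (P.Q (i+1) (i+6) (by omega) (by omega)) (P.Qr (i+1) (i+6) (by omega) (by omega))
      (P.Q (i+1) (i+7) (by omega) (by omega)) (P.Qr (i+1) (i+7) (by omega) (by omega))
      (P.Q (i+2) (i+7) (by omega) (by omega)) (P.Qr (i+2) (i+7) (by omega) (by omega))
      (P.S i (i+5) (by omega) (by omega))
  · refine no6_big _ _ _ _ _ _ (x (i+7)) (x (i+8)) (P.ne (i+7))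
      (P.Q i (i+7) (by omega) (by omega)) (P.Qr i (i+7) (by omega) (by omega))
      (P.Q (i+1) (i+7) (by omega) (by omega)) (P.Qr (i+1) (i+7) (by omega) (by omega))
      (P.Q (i+2) (i+7) (by omega) (by omega)) (P.Qr (i+2) (i+7) (by omega) (by omega))

theorem no5 {M : ℕ} {x : ℕ → Fin 3} (P : Pat3 M x) (hM : 9 ≤ M) (hodd : Odd M) (i : ℕ) :
    f5 (x i) (x (i+1)) (x (i+2)) (x (i+3)) (x (i+4)) = false := by
  have h1 := no6 P hM hodd (i + M - 1)
  have h2 := no6 P hM hodd i
  have h3 := P.T10 (i + M - 1)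
  have e1 : i + M - 1 + 1 = i + M := by omega
  have e2 : i + M - 1 + 2 = i + 1 + M := by omega
  have e3 : i + M - 1 + 3 = i + 2 + M := by omega
  have e4 : i + M - 1 + 4 = i + 3 + M := by omega
  have e5 : i + M - 1 + 5 = i + 4 + M := by omega
  have e6 : i + M - 1 + 6 = i + 5 + M := by omega
  have n1 := P.ne (i + M - 1)
  rw [e1, e2, e3, e4, e5, P.per, P.per, P.per, P.per, P.per] at h1
  rw [e1, e2, e3, e4, e5, e6, P.per, P.per, P.per, P.per, P.per, P.per] at h3
  rw [e1, P.per] at n1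
  exact no5_local _ _ _ _ _ _ _ n1 (P.ne (i+4)) h1 h2 h3

theorem no_pat3 {M : ℕ} {x : ℕ → Fin 3} (P : Pat3 M x) (hM : 9 ≤ M) (hodd : Odd M) : False := by
  let m : ℕ → Bool := fun i => mu (x i) (x (i+1)) (x (i+2)) (x (i+3)) (x (i+4)) (x (i+5))
  have hstep : ∀ i, m (i+1) = !(m i) := by
    intro i
    exact mu_alt (x i) (x (i+1)) (x (i+2)) (x (i+3)) (x (i+4)) (x (i+5)) (x (i+6))
      (P.ne i) (P.ne (i+1)) (P.ne (i+2)) (P.ne (i+3)) (P.ne (i+4)) (P.ne (i+5))
      (P.T6 i) (P.T6 (i+1)) (P.T6r i) (P.T6r (i+1)) (P.T8 i) (P.R i)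
      (no5 P hM hodd i) (no5 P hM hodd (i+1)) (no5 P hM hodd (i+2))
  have hk : ∀ k, m (2 * k) = m 0 := by
    intro k
    induction k with
    | zero => rfl
    | succ k ih =>
      rw [show 2 * (k+1) = 2 * k + 1 + 1 by omega, hstep, hstep, ih, Bool.not_not]
  obtain ⟨t, ht⟩ := hodd
  have h1 : m M = !(m 0) := by rw [ht, hstep, hk]
  have h2 : m M = m 0 := by
    have e : ∀ d, x (M + d) = x d := by
      intro d
      rw [Nat.add_comm, P.per]
    change mu (x M) (x (M+1)) (x (M+2)) (x (M+3)) (x (M+4)) (x (M+5)) = _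
    rw [e, e, e, e, e, show x M = x 0 from by have := P.per 0; rwa [Nat.zero_add] at this]
  rw [h2] at h1
  cases h : m 0 <;> rw [h] at h1 <;> exact absurd h1 (by decide)

end Pool.Agent.H171R2.P6
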