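import Mathlib
import Pool.Agent.H171R2.P6Pat
import Pool.Agent.H171R2.P6Comb
import Pool.Agent.H171R2.P6Three

/-!
# Assembly
-/

set_option autoImplicit false

namespace Pool.Agent.H171R2.P6

open SimpleGraph

variable {V : Type} {S : Setup V} {M : ℕ} {a : ℕ → V}

theorem Seq.pat (h : Seq S M a) (hM : 7 ≤ M) : Pat M (fun i => S.dom (a i)) where
  per i := by rw [h.per]
  ne i := h.ne i
  T1 i j h1 h2 hd := pT1 h h1 h2 hd rfl rfl rfl rfl
  T2 i j h1 h2 hd he := pT2 h h1 h2 hd rfl rfl rfl rfl he.1 he.2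
  T2r i j h1 h2 hd he := by
    refine pT2r h h1 h2 (A := S.dom (a (i+3))) (B := S.dom (a (i+2))) (C := S.dom (a (i+1)))
      (D := S.dom (a i)) ?_ rfl rfl rfl rfl he.1 he.2
    simp only [List.nodup_cons, List.mem_cons, List.not_mem_nil, or_false, not_or,
      List.nodup_nil, not_false_eq_true, and_true] at hd ⊢
    obtain ⟨⟨h1, h2, h3⟩, ⟨h4, h5⟩, h6⟩ := hd
    exact ⟨⟨Ne.symm h6, Ne.symm h5, Ne.symm h3⟩, ⟨Ne.symm h4, Ne.symm h2⟩, Ne.symm h1⟩
  T3 i hd he := pT3 h hM hd rfl rfl rfl rfl he.1 he.2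
  T4 i hd he := pT4 h hM hd rfl rfl rfl rfl he.1 he.2
  T5 i hd he := by
    refine pT5 h hM (A := S.dom (a i)) (B := S.dom (a (i+1))) (C := S.dom (a (i+2)))
      (D := S.dom (a (i+5))) ?_ rfl rfl rfl he.1.symm he.2.symm rfl
    have e1 : S.dom (a i) = S.dom (a (i+3)) := he.1
    have e2 : S.dom (a (i+1)) = S.dom (a (i+4)) := he.2
    simp only [List.nodup_cons, List.mem_cons, List.not_mem_nil, or_false, not_or,
      List.nodup_nil, not_false_eq_true, and_true] at hd ⊢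
    rw [e1, e2]
    obtain ⟨⟨h1, h2, h3⟩, ⟨h4, h5⟩, h6⟩ := hd
    exact ⟨⟨h4, Ne.symm h1, h5⟩, ⟨Ne.symm h2, h6⟩, h3⟩
  T5r i hd he := by
    refine pT5r h hM (A := S.dom (a (i+2))) (B := S.dom (a (i+1))) (C := S.dom (a (i+3)))
      (D := S.dom (a i)) ?_ he.2 he.1 rfl rfl rfl rfl
    simp only [List.nodup_cons, List.mem_cons, List.not_mem_nil, or_false, not_or,
      List.nodup_nil, not_false_eq_true, and_true] at hd ⊢
    obtain ⟨⟨h1, h2, h3⟩, ⟨h4, h5⟩, h6⟩ := hd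
    exact ⟨⟨Ne.symm h4, h6, Ne.symm h2⟩, ⟨h5, Ne.symm h1⟩, Ne.symm h3⟩

/-- the three pairwise distinct values as a function on `Fin 3` -/
theorem nodup3 {A B C : V} (hd : [A, B, C].Nodup) (x y : Fin 3) :
    (![A, B, C] : Fin 3 → V) x = ![A, B, C] y ↔ x = y := by
  simp only [List.nodup_cons, List.mem_cons, List.not_mem_nil, or_false, not_or,
    List.nodup_nil, not_false_eq_true, and_true] at hd
  obtain ⟨⟨h1, h2⟩, h3⟩ := hd
  fin_cases x <;> fin_cases y <;> simp [h1, h2, h3, Ne.symm h1, Ne.symm h2, Ne.symm h3]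

theorem nodup3' {A B C : V} (hd : [A, B, C].Nodup) (x y z : Fin 3) (h1 : x ≠ y) (h2 : x ≠ z)
    (h3 : y ≠ z) : [(![A, B, C] : Fin 3 → V) x, ![A, B, C] y, ![A, B, C] z].Nodup := by
  simp only [List.nodup_cons, List.mem_cons, List.not_mem_nil, or_false, not_or,
    List.nodup_nil, not_false_eq_true, and_true, nodup3 hd]
  exact ⟨⟨h1, h2⟩, h3⟩

theorem Seq.pat3 (h : Seq S M a) (hM : 9 ≤ M) {A B C : V} (hd : [A, B, C].Nodup)
    (x : ℕ → Fin 3) (hx : ∀ i, S.dom (a i) = (![A, B, C] : Fin 3 → V) (x i)) : Pat3 M x where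
  per i := by
    have := h.per i
    rw [← nodup3 hd, ← hx, ← hx, this]
  ne i he := h.ne i (by rw [hx, hx, he])
  T6 i := by
    rw [Bool.eq_false_iff]
    intro hc
    simp only [fT6, Bool.and_eq_true, bne_iff_ne, beq_iff_eq] at hc
    obtain ⟨⟨⟨⟨⟨h1, h2⟩, h3⟩, h4⟩, h5⟩, h6⟩ := hc
    exact pT6 h (by omega) (nodup3' hd _ _ _ h1 h2 h3) (hx i) (hx (i+1)) (hx (i+2))
      (by rw [hx, h4]) (by rw [hx, h5]) (by rw [hx, h6])
  T6r i := by
    rw [Bool.eq_false_iff]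
    intro hc
    simp only [fT6r, Bool.and_eq_true, bne_iff_ne, beq_iff_eq] at hc
    obtain ⟨⟨⟨⟨⟨h1, h2⟩, h3⟩, h4⟩, h5⟩, h6⟩ := hc
    exact pT6r h (by omega) (nodup3' hd (x (i+2)) (x i) (x (i+1)) (Ne.symm h2) (Ne.symm h3) h1)
      (by rw [hx, h6]) (by rw [hx, h5]) (by rw [hx, h4]) (hx (i+2)) (hx (i+1)) (hx i)
  T8 i := by
    rw [Bool.eq_false_iff]
    intro hc
    simp only [fT8, Bool.and_eq_true, bne_iff_ne, beq_iff_eq] at hc
    obtain ⟨⟨⟨⟨⟨⟨h1, h2⟩, h3⟩, h4⟩, h5⟩, h6⟩, h7⟩ := hc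
    exact pT8 h (by omega) (nodup3' hd (x i) (x (i+1)) (x (i+4)) h1 (Ne.symm h4) (Ne.symm h5))
      (hx i) (hx (i+1)) (by rw [hx, h2]) (by rw [hx, h3]) (hx (i+4)) (by rw [hx, h6])
      (by rw [hx, h7])
  T10 i := by
    rw [Bool.eq_false_iff]
    intro hc
    simp only [fT10, Bool.and_eq_true, bne_iff_ne, beq_iff_eq] at hc
    obtain ⟨⟨⟨⟨⟨⟨h1, h2⟩, h3⟩, h4⟩, h5⟩, h6⟩, h7⟩ := hc
    exact pT10 h (by omega) (nodup3' hd (x i) (x (i+1)) (x (i+3)) h1 (Ne.symm h3) (Ne.symm h4))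
      (hx i) (hx (i+1)) (by rw [hx, h2]) (hx (i+3)) (by rw [hx, h5]) (by rw [hx, h6])
      (by rw [hx, h7])
  R i := by
    rw [Bool.eq_false_iff]
    intro hc
    simp only [fR, Bool.and_eq_true, bne_iff_ne, beq_iff_eq] at hc
    obtain ⟨⟨⟨⟨⟨h1, h2⟩, h3⟩, h4⟩, h5⟩, h6⟩ := hc
    exact pR h (i := i) (j := i + 4) (by omega) (by omega) (nodup3' hd _ _ _ h1 h2 h3)
      (hx i) (hx (i+1)) (hx (i+2))
      (by rw [hx, h4]) (by rw [hx, h5]) (by rw [hx, h6])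
  Q i j hj1 hj2 := by
    rw [Bool.eq_false_iff]
    intro hc
    simp only [f6, Bool.and_eq_true, bne_iff_ne, beq_iff_eq] at hc
    obtain ⟨⟨⟨⟨⟨h1, h2⟩, h3⟩, h4⟩, h5⟩, h6⟩ := hc
    exact pQ h hj1 hj2 (nodup3' hd _ _ _ h1 h2 h3) (hx i) (hx (i+1)) (hx (i+2))
      (by rw [hx, h4]) (by rw [hx, h5]) (by rw [hx, h6])
  Qr i j hj1 hj2 := by
    rw [Bool.eq_false_iff]
    intro hc
    simp only [f6, Bool.and_eq_true, bne_iff_ne, beq_iff_eq] at hc
    obtain ⟨⟨⟨⟨⟨h1, h2⟩, h3⟩, h4⟩, h5⟩, h6⟩ := hc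
    exact pQr h hj1 hj2 (nodup3' hd _ _ _ h1 h2 h3) (hx (i+3)) (hx (i+2)) (hx (i+1))
      (by rw [hx, h4]) (by rw [hx, h5]) (by rw [hx, h6])
  S i j hj1 hj2 := by
    rw [Bool.eq_false_iff]
    intro hc
    simp only [f5, Bool.and_eq_true, bne_iff_ne, beq_iff_eq] at hc
    obtain ⟨⟨⟨⟨⟨⟨h1, h2⟩, h3⟩, h4⟩, h5⟩, h6⟩, h7⟩ := hc
    exact pS h hj1 hj2 (nodup3' hd _ _ _ h1 h2 h3) (hx i) (hx (i+1)) (hx (i+2))
      (by rw [hx, h4]) (by rw [hx, h6]) (by rw [hx, h7]) (by rw [hx, h5])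

theorem exists_fin3 {A B C : V} (hv : ∀ i, S.dom (a i) = A ∨ S.dom (a i) = B ∨ S.dom (a i) = C) :
    ∃ x : ℕ → Fin 3, ∀ i, S.dom (a i) = (![A, B, C] : Fin 3 → V) (x i) := by
  have : ∀ i, ∃ y : Fin 3, S.dom (a i) = (![A, B, C] : Fin 3 → V) y := by
    intro i
    rcases hv i with h | h | h
    · exact ⟨0, h⟩
    · exact ⟨1, h⟩
    · exact ⟨2, h⟩
  exact ⟨fun i => (this i).choose, fun i => (this i).choose_spec⟩

theorem no_seq9 (h : Seq S M a) (hM : 9 ≤ M) (hodd : Odd M) : False := by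
  have P := h.pat (by omega)
  obtain ⟨A, B, C, hd, hv⟩ := three_values P (by omega) hodd (stepA P hM hodd)
  obtain ⟨x, hx⟩ := exists_fin3 (S := S) (a := a) hv
  exact no_pat3 (h.pat3 hM hd x hx) hM hodd

theorem no_seq7 (h : Seq S 7 a) : False := by
  have P := h.pat (by omega)
  obtain ⟨A, B, C, hd, hv⟩ := three_values P (by omega) (by decide) (stepA7 P)
  obtain ⟨x, hx⟩ := exists_fin3 (S := S) (a := a) hv
  have per : ∀ i, x (i + 7) = x i := by
    intro i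
    have := h.per i
    rw [← nodup3 hd, ← hx, ← hx, this]
  have ne : ∀ i, x i ≠ x (i + 1) := fun i he => h.ne i (by rw [hx, hx, he])
  have T6 : ∀ i, fT6 (x i) (x (i+1)) (x (i+2)) (x (i+3)) (x (i+4)) (x (i+5)) = false := by
    intro i
    rw [Bool.eq_false_iff]
    intro hc
    simp only [fT6, Bool.and_eq_true, bne_iff_ne, beq_iff_eq] at hc
    obtain ⟨⟨⟨⟨⟨h1, h2⟩, h3⟩, h4⟩, h5⟩, h6⟩ := hc
    exact pT6 h (by omega) (nodup3' hd _ _ _ h1 h2 h3) (hx i) (hx (i+1)) (hx (i+2))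
      (by rw [hx, h4]) (by rw [hx, h5]) (by rw [hx, h6])
  have T6r : ∀ i, fT6r (x i) (x (i+1)) (x (i+2)) (x (i+3)) (x (i+4)) (x (i+5)) = false := by
    intro i
    rw [Bool.eq_false_iff]
    intro hc
    simp only [fT6r, Bool.and_eq_true, bne_iff_ne, beq_iff_eq] at hc
    obtain ⟨⟨⟨⟨⟨h1, h2⟩, h3⟩, h4⟩, h5⟩, h6⟩ := hc
    exact pT6r h (by omega) (nodup3' hd (x (i+2)) (x i) (x (i+1)) (Ne.symm h2) (Ne.symm h3) h1)
      (by rw [hx, h6]) (by rw [hx, h5]) (by rw [hx, h4]) (hx (i+2)) (hx (i+1)) (hx i)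
  have G3 : ∀ i, fG3 (x i) (x (i+1)) (x (i+2)) (x (i+3)) (x (i+4)) (x (i+5)) = false := by
    intro i
    rw [Bool.eq_false_iff]
    intro hc
    simp only [fG3, Bool.and_eq_true, bne_iff_ne, beq_iff_eq] at hc
    obtain ⟨⟨⟨⟨⟨h1, h2⟩, h3⟩, h4⟩, h5⟩, h6⟩ := hc
    exact pG3 h (by omega) (nodup3' hd _ _ _ h1 h2 h3) (hx i) (hx (i+1)) (hx (i+2))
      (by rw [hx, h4]) (by rw [hx, h5]) (by rw [hx, h6])
  have C7 : ∀ i, fC7 (x i) (x (i+1)) (x (i+2)) (x (i+3)) (x (i+4)) (x (i+5)) (x (i+6)) =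
      false := by
    intro i
    rw [Bool.eq_false_iff]
    intro hc
    simp only [fC7, Bool.and_eq_true, bne_iff_ne, beq_iff_eq] at hc
    obtain ⟨⟨⟨⟨⟨⟨h1, h2⟩, h3⟩, h4⟩, h5⟩, h6⟩, h7⟩ := hc
    exact pC7a h rfl (nodup3' hd (x i) (x (i+1)) (x (i+6)) h1 (Ne.symm h6) (Ne.symm h7))
      (hx i) (hx (i+1)) (by rw [hx, h2]) (by rw [hx, h3]) (by rw [hx, h4]) (by rw [hx, h5])
      (hx (i+6))
  have p0 : x 7 = x 0 := per 0
  have p1 : x 8 = x 1 := per 1
  have p2 : x 9 = x 2 := per 2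
  have p3 : x 10 = x 3 := per 3
  have p4 : x 11 = x 4 := per 4
  have p5 : x 12 = x 5 := per 5
  have key := sevenB (x 0) (x 1) (x 2) (x 3) (x 4) (x 5) (x 6)
  have n0 := ne 0
  have n1 := ne 1
  have n2 := ne 2
  have n3 := ne 3
  have n4 := ne 4
  have n5 := ne 5
  have n6 := ne 6
  simp only [Nat.reduceAdd, p0] at n0 n1 n2 n3 n4 n5 n6
  have w6 : ∀ F : Fin 3 → Fin 3 → Fin 3 → Fin 3 → Fin 3 → Fin 3 → Bool,
      (∀ i, F (x i) (x (i+1)) (x (i+2)) (x (i+3)) (x (i+4)) (x (i+5)) = false) →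
      any7 F (x 0) (x 1) (x 2) (x 3) (x 4) (x 5) (x 6) = false := by
    intro F hF
    have t0 := hF 0
    have t1 := hF 1
    have t2 := hF 2
    have t3 := hF 3
    have t4 := hF 4
    have t5 := hF 5
    have t6 := hF 6
    simp only [Nat.reduceAdd, p0, p1, p2, p3, p4] at t0 t1 t2 t3 t4 t5 t6
    simp [any7, t0, t1, t2, t3, t4, t5, t6]
  have w7 : ∀ F : Fin 3 → Fin 3 → Fin 3 → Fin 3 → Fin 3 → Fin 3 → Fin 3 → Bool,
      (∀ i, F (x i) (x (i+1)) (x (i+2)) (x (i+3)) (x (i+4)) (x (i+5)) (x (i+6)) = false) →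
      any7' F (x 0) (x 1) (x 2) (x 3) (x 4) (x 5) (x 6) = false := by
    intro F hF
    have t0 := hF 0
    have t1 := hF 1
    have t2 := hF 2
    have t3 := hF 3
    have t4 := hF 4
    have t5 := hF 5
    have t6 := hF 6
    simp only [Nat.reduceAdd, p0, p1, p2, p3, p4, p5] at t0 t1 t2 t3 t4 t5 t6
    simp [any7', t0, t1, t2, t3, t4, t5, t6]
  rw [w6 _ T6, w6 _ T6r, w6 _ G3, w7 _ C7, beq_false_of_ne n0, beq_false_of_ne n1,
    beq_false_of_ne n2, beq_false_of_ne n3, beq_false_of_ne n4, beq_false_of_ne n5,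
    beq_false_of_ne n6] at key
  exact absurd key (by decide)

theorem no_seq5 (h : Seq S 5 a) : False := by
  by_cases hex : ∃ i, S.dom (a i) = S.dom (a (i+2))
  · obtain ⟨i, hi⟩ := hex
    have n0 := h.ne i
    have n2 : S.dom (a (i+2)) ≠ S.dom (a (i+3)) := h.ne (i+2)
    have n3 : S.dom (a (i+3)) ≠ S.dom (a (i+4)) := h.ne (i+3)
    have n4 : S.dom (a (i+4)) ≠ S.dom (a i) := by
      have := h.ne (i+4)
      rwa [show i + 4 + 1 = i + 5 by omega, h.per] at this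
    by_cases h3 : S.dom (a (i+3)) = S.dom (a (i+1))
    · refine pC5a h rfl (i := i) (A := S.dom (a i)) (B := S.dom (a (i+1)))
        (C := S.dom (a (i+4))) ?_ rfl rfl hi.symm h3 rfl
      simp only [List.nodup_cons, List.mem_cons, List.not_mem_nil, or_false, not_or,
        List.nodup_nil, not_false_eq_true, and_true]
      exact ⟨⟨n0, Ne.symm n4⟩, fun he => n3 (h3.trans he)⟩
    · by_cases h4 : S.dom (a (i+4)) = S.dom (a (i+1))
      · have q0 : S.dom (a (i+4+1)) = S.dom (a i) := by rw [show i + 4 + 1 = i + 5 by omega, h.per]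
        have q1 : S.dom (a (i+4+2)) = S.dom (a (i+4)) := by
          rw [show i + 4 + 2 = i + 1 + 5 by omega, h.per, h4]
        have q2 : S.dom (a (i+4+3)) = S.dom (a i) := by
          rw [show i + 4 + 3 = i + 2 + 5 by omega, h.per, hi]
        have q3 : S.dom (a (i+4+4)) = S.dom (a (i+3)) := by
          rw [show i + 4 + 4 = i + 3 + 5 by omega, h.per]
        refine pC5a h rfl (i := i+4) (A := S.dom (a (i+4))) (B := S.dom (a i))
          (C := S.dom (a (i+3))) ?_ rfl q0 q1 q2 q3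
        simp only [List.nodup_cons, List.mem_cons, List.not_mem_nil, or_false, not_or,
          List.nodup_nil, not_false_eq_true, and_true]
        exact ⟨⟨n4, Ne.symm n3⟩, fun he => n2 (hi.symm.trans he)⟩
      · refine pC5b h rfl (i := i) (A := S.dom (a i)) (B := S.dom (a (i+1)))
          (C := S.dom (a (i+3))) (D := S.dom (a (i+4))) ?_ rfl rfl hi.symm rfl rfl
        simp only [List.nodup_cons, List.mem_cons, List.not_mem_nil, or_false, not_or,
          List.nodup_nil, not_false_eq_true, and_true]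
        exact ⟨⟨n0, fun he => n2 (hi.symm.trans he), Ne.symm n4⟩,
          ⟨Ne.symm h3, Ne.symm h4⟩, n3⟩
  · push Not at hex
    have per := h.per
    have m0 := h.ne 0
    have m1 := h.ne 1
    have m2 := h.ne 2
    have m3 := h.ne 3
    have m4 := h.ne 4
    have k0 := hex 0
    have k1 := hex 1
    have k2 := hex 2
    have k3 := hex 3
    have k4 := hex 4
    have p5 : a 5 = a 0 := per 0
    have p6 : a 6 = a 1 := per 1
    simp only [Nat.reduceAdd, p5, p6] at m0 m1 m2 m3 m4 k0 k1 k2 k3 k4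
    refine pC5c h rfl (i := 0) (A := S.dom (a 0)) (B := S.dom (a 1)) (C := S.dom (a 2))
      (D := S.dom (a 3)) (E := S.dom (a 4)) ?_ rfl rfl rfl rfl rfl
    simp only [List.nodup_cons, List.mem_cons, List.not_mem_nil, or_false, not_or,
      List.nodup_nil, not_false_eq_true, and_true]
    exact ⟨⟨m0, k0, Ne.symm k3, Ne.symm m4⟩, ⟨m1, k1, Ne.symm k4⟩, ⟨m2, k2⟩, m3⟩

theorem no_seq (h : Seq S M a) (hM : 5 ≤ M) (hodd : Odd M) : False := by
  obtain ⟨t, ht⟩ := hodd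
  rcases Nat.lt_or_ge M 9 with h9 | h9
  · obtain rfl | rfl : M = 5 ∨ M = 7 := by omega
    · exact no_seq5 h
    · exact no_seq7 h
  · exact no_seq9 h h9 ⟨t, ht⟩

/-! ### From graphs to setups -/

theorem path6_inj {W : Type} {G : SimpleGraph W} {f : Fin 6 → W}
    (hf : ∀ i j, G.Adj (f i) (f j) ↔ (pathGraph 6).Adj i j) : Function.Injective f := by
  intro i j he
  by_contra hij
  obtain ⟨k, -, -, hk⟩ := path6_twin i j hij
  exact hk (by rw [← hf, ← hf, he])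

/-- the setup of a `P₆`-free graph with an efficient dominating set -/
theorem exists_setup {W : Type} (G : SimpleGraph W) (hP : IsEmpty (pathGraph 6 ↪g G))
    (hD : ∃ D : Set W, ∀ v : W, ∃! d : W, d ∈ D ∧ (d = v ∨ G.Adj d v)) :
    ∃ S : Setup W, S.G = G := by
  obtain ⟨D, hD⟩ := hD
  choose dom hdom huniq using hD
  simp only at hdom huniq
  have hmem : ∀ d, d ∈ D → dom d = d := fun d hd => (huniq d d ⟨hd, Or.inl rfl⟩).symm
  refine ⟨⟨G, dom, fun v => (hdom v).2, fun v => hmem _ (hdom v).1, ?_, ?_⟩, rfl⟩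
  · intro v d hd hadj
    have hdD : d ∈ D := by rw [← hd]; exact (hdom d).1
    exact (huniq v d ⟨hdD, Or.inr hadj⟩).symm
  · intro f hf
    exact hP.false ⟨⟨f, path6_inj hf⟩, fun {i j} => hf i j⟩

theorem cyc_adj {n : ℕ} (hn : 3 ≤ n) (i j : ℕ) (hi : i < n) (hj : j < n) :
    (cycleGraph n).Adj ⟨i, hi⟩ ⟨j, hj⟩ ↔
      (i + 1 = j ∨ j + 1 = i) ∨ (i = 0 ∧ j + 1 = n) ∨ (j = 0 ∧ i + 1 = n) := by
  rw [cycleGraph_adj']
  have key : ∀ a b : ℕ, ∀ ha : a < n, ∀ hb : b < n,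
      ((⟨a, ha⟩ : Fin n) - ⟨b, hb⟩).val = 1 ↔ (b + 1 = a ∨ (a = 0 ∧ b + 1 = n)) := by
    intro a b ha hb
    rw [Fin.sub_def]
    change (n - b + a) % n = 1 ↔ _
    rcases Nat.lt_or_ge a b with hab | hab
    · rw [Nat.mod_eq_of_lt (by omega)]
      omega
    · have : n - b + a = (a - b) + n := by omega
      rw [this, Nat.add_mod_right, Nat.mod_eq_of_lt (by omega)]
      omega
  rw [key i j hi hj, key j i hj hi]
  omega

/-- the square of a graph, as in the frozen statement -/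
def sq {W : Type} (G : SimpleGraph W) : SimpleGraph W :=
  SimpleGraph.fromRel (fun u v : W => G.Adj u v ∨ ∃ w, G.Adj u w ∧ G.Adj w v)

theorem mod_add (i d k : ℕ) (hd : d < k) :
    (i + d) % k = if i % k + d < k then i % k + d else i % k + d - k := by
  have hk : 0 < k := by omega
  have h1 := Nat.mod_lt i hk
  rw [Nat.add_mod, Nat.mod_eq_of_lt hd]
  split
  · rename_i h
    exact Nat.mod_eq_of_lt h
  · rename_i h
    rw [Nat.mod_eq_sub_mod (by omega), Nat.mod_eq_of_lt (by omega)]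

theorem main {W : Type} (G : SimpleGraph W) (hP : IsEmpty (pathGraph 6 ↪g G))
    (hD : ∃ D : Set W, ∀ v : W, ∃! d : W, d ∈ D ∧ (d = v ∨ G.Adj d v))
    (k : ℕ) (hk : 5 ≤ k) (hodd : Odd k) : IsEmpty ((cycleGraph k)ᶜ ↪g sq G) := by
  obtain ⟨S, rfl⟩ := exists_setup G hP hD
  constructor
  intro f
  have hk0 : 0 < k := by omega
  have hsq : ∀ u v : W, (sq S.G).Adj u v ↔ u ≠ v ∧ Near S u v := by
    intro u v
    rw [sq, SimpleGraph.fromRel_adj]
    constructor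
    · rintro ⟨h1, h2 | h2⟩
      · exact ⟨h1, h2⟩
      · exact ⟨h1, Near.symm S h2⟩
    · rintro ⟨h1, h2⟩
      exact ⟨h1, Or.inl h2⟩
  let a : ℕ → W := fun i => f ⟨i % k, Nat.mod_lt i hk0⟩
  refine no_seq (S := S) (M := k) (a := a) ⟨?_, ?_, ?_⟩ hk hodd
  · intro i
    change f ⟨(i + k) % k, _⟩ = f ⟨i % k, _⟩
    congr 1
    exact Fin.ext (Nat.add_mod_right i k)
  · intro i
    have hmod := mod_add i 1 k (by omega)
    have hlt := Nat.mod_lt i hk0
    have hne : a i ≠ a (i + 1) := by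
      intro he
      have := Fin.mk.inj (f.injective he)
      rw [hmod] at this
      split at this <;> omega
    have hcyc : (cycleGraph k).Adj ⟨i % k, Nat.mod_lt i hk0⟩ ⟨(i+1) % k, Nat.mod_lt _ hk0⟩ := by
      rw [cyc_adj (by omega)]
      rw [hmod]
      split <;> omega
    have hn : ¬ (sq S.G).Adj (a i) (a (i+1)) := by
      intro h
      have := f.map_adj_iff.1 h
      rw [compl_adj] at this
      exact this.2 hcyc
    rw [hsq] at hn
    have hn' : ¬ Near S (a i) (a (i+1)) := fun h => hn ⟨hne, h⟩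
    exact ⟨hne, fun h => hn' (Or.inl h), fun w h => hn' (Or.inr ⟨w, h⟩)⟩
  · intro i j h1 h2
    obtain ⟨d, rfl⟩ := Nat.exists_eq_add_of_le (show i ≤ j by omega)
    have hmod := mod_add i d k (by omega)
    have hlt := Nat.mod_lt i hk0
    have hadj : ((cycleGraph k)ᶜ).Adj ⟨i % k, Nat.mod_lt i hk0⟩ ⟨(i+d) % k, Nat.mod_lt _ hk0⟩ := by
      rw [compl_adj, cyc_adj (by omega)]
      constructor
      · intro he
        have := Fin.mk.inj he
        rw [hmod] at this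
        split at this <;> omega
      · rw [hmod]
        split <;> omega
    have := f.map_adj_iff.2 hadj
    rw [hsq] at this
    exact this.2

end Pool.Agent.H171R2.P6
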